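import Pool.Agent.Lib.SmL.K.Rankin

/-!
SMITH-L (SmL), counting half, block K: the anatomy of the twists of degree `n` over a prime system.
Weighted sums of the squarefree divisors: `rankin'` (Rankin's trick) and `dist_le` (two primes of the
same degree), the weight of `D` is `(l - 1) ^ |D|`.
-/

set_option autoImplicit false

open Finset

namespace Pool.Agent.SmL.PSys

variable {X : PSys} {q : ℕ}

/-- The constant. -/
noncomputable def KU (l : ℕ) (C : ℝ) : ℝ :=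
  2 * ((l : ℝ) - 1) * (1 + C) * Real.exp (((l : ℝ) - 1) * (1 + 4 * C))

theorem one_le_w {l : ℕ} (hl : 2 ≤ l) : (1 : ℝ) ≤ (l : ℝ) - 1 := by
  have : (2 : ℝ) ≤ l := by exact_mod_cast hl
  linarith

theorem KU_pos {l : ℕ} (hl : 2 ≤ l) {C : ℝ} (hC0 : 0 ≤ C) : 0 < KU l C := by
  have := one_le_w hl
  have h1 : (0 : ℝ) < (l : ℝ) - 1 := by linarith
  rw [KU]
  positivity

theorem one_le_KU {l : ℕ} (hl : 2 ≤ l) {C : ℝ} (hC0 : 0 ≤ C) : 1 ≤ KU l C := by
  have h1 := one_le_w hl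
  have h2 : 1 ≤ Real.exp (((l : ℝ) - 1) * (1 + 4 * C)) :=
    Real.one_le_exp (mul_nonneg (by linarith) (by linarith))
  have h3 : 1 ≤ 2 * ((l : ℝ) - 1) * (1 + C) := by nlinarith
  rw [KU]
  nlinarith

open Classical in
/-- Rankin's trick. -/
theorem rankin (hX : X.Ok q) {l : ℕ} (hl : 2 ≤ l) {C : ℝ} (hC0 : 0 ≤ C)
    (hC : ∀ d : ℕ, 1 ≤ d → |(d : ℝ) * npr X d - (q : ℝ) ^ d| ≤ C * √((q : ℝ) ^ d))
    (p : ℕ → Prop) {z0 : ℝ} (h0 : 0 < z0) (h2 : z0 ≤ 2) (n : ℕ) (hn : 1 ≤ n) (t : ℝ)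
    (E : Finset X.Pr → Prop)
    (hE : ∀ D ∈ Dn hX n, E D → z0 ^ t ≤ z0 ^ (D.filter fun P => p (X.deg P)).card) :
    ∑ D ∈ (Dn hX n).filter E, ((l : ℝ) - 1) ^ D.card ≤
      2 * ((l : ℝ) - 1) * (1 + C) * (q : ℝ) ^ n / n *
      Real.exp (((l : ℝ) - 1) * ∑ P ∈ Ple hX n, 1 / (q : ℝ) ^ X.deg P +
        ((l : ℝ) - 1) * (z0 - 1) * (∑ P ∈ Ple hX n with p (X.deg P), 1 / (q : ℝ) ^ X.deg P) -
        t * Real.log z0) := by
  have hw := one_le_w hl
  set w : ℝ := (l : ℝ) - 1 with hwdef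
  have hw0 : 0 ≤ w := by linarith
  set z : X.Pr → ℝ := fun P => w * if p (X.deg P) then z0 else 1 with hz
  have hz0 : ∀ P, 0 ≤ z P := by
    intro P
    simp only [hz]
    split_ifs
    · positivity
    · positivity
  have hz2 : ∀ P, z P ≤ 2 * w := by
    intro P
    simp only [hz]
    split_ifs
    · nlinarith
    · linarith
  have h1 : (∑ D ∈ (Dn hX n).filter E, w ^ D.card) * z0 ^ t ≤ Sz hX z n := by
    rw [sum_mul, Sz]
    calc ∑ D ∈ (Dn hX n).filter E, w ^ D.card * z0 ^ t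
        ≤ ∑ D ∈ (Dn hX n).filter E, ∏ P ∈ D, z P := by
          refine sum_le_sum fun D hD => ?_
          have hD' := mem_filter.1 hD
          refine (mul_le_mul_of_nonneg_left (hE D hD'.1 hD'.2) (pow_nonneg hw0 _)).trans ?_
          simp only [hz]
          rw [prod_mul_distrib, prod_const, prod_ite, prod_const, prod_const, one_pow, mul_one]
      _ ≤ ∑ D ∈ Dn hX n, ∏ P ∈ D, z P :=
          sum_le_sum_of_subset_of_nonneg (filter_subset _ _) fun D _ _ =>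
            prod_nonneg fun P _ => hz0 P
  have h3 := h1.trans (Sz_le hX hC0 hC hz0 (by linarith) hz2 n hn)
  have h4 : ∑ P ∈ Ple hX n, z P / (q : ℝ) ^ X.deg P = w * ∑ P ∈ Ple hX n, 1 / (q : ℝ) ^ X.deg P +
      w * (z0 - 1) * ∑ P ∈ Ple hX n with p (X.deg P), 1 / (q : ℝ) ^ X.deg P := by
    rw [sum_filter, mul_sum, mul_sum, ← sum_add_distrib]
    refine sum_congr rfl fun P _ => ?_
    simp only [hz]
    split_ifs
    · ring
    · ring
  rw [h4] at h3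
  have h5 : z0 ^ t = Real.exp (t * Real.log z0) := by
    rw [Real.rpow_def_of_pos h0, mul_comm]
  rw [h5] at h3
  rw [Real.exp_sub, ← mul_div_assoc, le_div_iff₀ (Real.exp_pos _)]
  exact h3

theorem harm_le (n : ℕ) : ∑ d ∈ Icc 1 n, 1 / (d : ℝ) ≤ 1 + Real.log n := by
  have h1 := harmonic_le_one_add_log n
  rw [harmonic_eq_sum_Icc] at h1
  push_cast at h1
  simpa [one_div] using h1

theorem le_harm (n : ℕ) : Real.log (n + 1) ≤ ∑ d ∈ Icc 1 n, 1 / (d : ℝ) := by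
  have h1 := log_add_one_le_harmonic n
  rw [harmonic_eq_sum_Icc] at h1
  push_cast at h1
  simpa [one_div] using h1

open Classical in
theorem mertens_all (hX : X.Ok q) {C : ℝ} (hC0 : 0 ≤ C)
    (hC : ∀ d : ℕ, 1 ≤ d → |(d : ℝ) * npr X d - (q : ℝ) ^ d| ≤ C * √((q : ℝ) ^ d))
    (n : ℕ) : ∑ P ∈ Ple hX n, 1 / (q : ℝ) ^ X.deg P ≤ 1 + Real.log n + 4 * C := by
  have h1 := (abs_le.1 (mertens hX hC0 hC n fun _ => True)).2
  simp only [filter_true] at h1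
  have h2 := harm_le n
  linarith

open Classical in
/-- Rankin's trick with the sum over all the primes evaluated. -/
theorem rankin' (hX : X.Ok q) {l : ℕ} (hl : 2 ≤ l) {C : ℝ} (hC0 : 0 ≤ C)
    (hC : ∀ d : ℕ, 1 ≤ d → |(d : ℝ) * npr X d - (q : ℝ) ^ d| ≤ C * √((q : ℝ) ^ d))
    (p : ℕ → Prop) {z0 : ℝ} (h0 : 0 < z0) (h2 : z0 ≤ 2) (n : ℕ) (hn : 1 ≤ n) (t : ℝ)
    (E : Finset X.Pr → Prop)
    (hE : ∀ D ∈ Dn hX n, E D → z0 ^ t ≤ z0 ^ (D.filter fun P => p (X.deg P)).card) :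
    ∑ D ∈ (Dn hX n).filter E, ((l : ℝ) - 1) ^ D.card ≤
      KU l C * (q : ℝ) ^ n * (n : ℝ) ^ (l - 2) *
      Real.exp (((l : ℝ) - 1) * (z0 - 1) *
        (∑ P ∈ Ple hX n with p (X.deg P), 1 / (q : ℝ) ^ X.deg P) - t * Real.log z0) := by
  have hn0 : (0 : ℝ) < n := by exact_mod_cast hn
  have hq0 := pow_pos hX.qpos n
  have hw := one_le_w hl
  refine (rankin hX hl hC0 hC p h0 h2 n hn t E hE).trans ?_
  set A := ∑ P ∈ Ple hX n with p (X.deg P), 1 / (q : ℝ) ^ X.deg P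
  have h3 := mertens_all hX hC0 hC n
  have hcast : ((l - 1 : ℕ) : ℝ) = (l : ℝ) - 1 := by
    rw [Nat.cast_sub (by omega), Nat.cast_one]
  rw [KU]
  set w : ℝ := (l : ℝ) - 1 with hwdef
  have hw0 : 0 < w := by linarith
  have h4 : Real.exp (w * ∑ P ∈ Ple hX n, 1 / (q : ℝ) ^ X.deg P + w * (z0 - 1) * A -
      t * Real.log z0) ≤
      Real.exp (w * (1 + 4 * C)) * (n : ℝ) ^ (l - 1) *
        Real.exp (w * (z0 - 1) * A - t * Real.log z0) := by
    have h5 : (n : ℝ) ^ (l - 1) = Real.exp (w * Real.log n) := by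
      rw [← hcast, Real.exp_nat_mul, Real.exp_log hn0]
    rw [h5, ← Real.exp_add, ← Real.exp_add, Real.exp_le_exp]
    have h6 := mul_le_mul_of_nonneg_left h3 hw0.le
    linarith
  have h7 : (n : ℝ) ^ (l - 1) = (n : ℝ) ^ (l - 2) * n := by
    rw [← pow_succ]
    congr 1
    omega
  calc 2 * w * (1 + C) * (q : ℝ) ^ n / n *
        Real.exp (w * ∑ P ∈ Ple hX n, 1 / (q : ℝ) ^ X.deg P + w * (z0 - 1) * A - t * Real.log z0)
      ≤ 2 * w * (1 + C) * (q : ℝ) ^ n / n *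
        (Real.exp (w * (1 + 4 * C)) * (n : ℝ) ^ (l - 1) *
          Real.exp (w * (z0 - 1) * A - t * Real.log z0)) := by
        refine mul_le_mul_of_nonneg_left h4 ?_
        positivity
    _ = _ := by
        rw [h7]
        field_simp

/-- The upper bound for the number of the twists of degree `m ≤ n`. -/
theorem sum_le_KU (hX : X.Ok q) {l : ℕ} (hl : 2 ≤ l) {C : ℝ} (hC0 : 0 ≤ C)
    (hC : ∀ d : ℕ, 1 ≤ d → |(d : ℝ) * npr X d - (q : ℝ) ^ d| ≤ C * √((q : ℝ) ^ d)) {m n : ℕ}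
    (hmn : m ≤ n) (hn : 1 ≤ n) :
    ∑ D ∈ Dn hX m, ((l : ℝ) - 1) ^ D.card ≤ KU l C * (q : ℝ) ^ m * (n : ℝ) ^ (l - 2) := by
  classical
  have hn0 : (1 : ℝ) ≤ n := by exact_mod_cast hn
  have hK := one_le_KU hl hC0
  rcases Nat.eq_zero_or_pos m with rfl | hm
  · rw [Dn_zero hX, sum_singleton, card_empty, pow_zero, pow_zero, mul_one]
    have h1 : (1 : ℝ) ≤ (n : ℝ) ^ (l - 2) := one_le_pow₀ hn0
    nlinarith
  · have h1 := rankin' hX hl hC0 hC (fun _ => False) one_pos one_le_two m hm 0 (fun _ => True)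
      (fun D _ _ => by rw [Real.rpow_zero, one_pow])
    simp only [filter_true, filter_false, sum_empty, mul_zero, zero_mul, sub_zero, Real.exp_zero,
      mul_one] at h1
    refine h1.trans (mul_le_mul_of_nonneg_left ?_ ?_)
    · exact pow_le_pow_left₀ (Nat.cast_nonneg _) (by exact_mod_cast hmn) _
    · have := pow_pos hX.qpos m
      have := KU_pos hl hC0
      positivity

/-- The upper bound for the number of the twists of degree `n`. -/
theorem nTD_le (hX : X.Ok q) {l : ℕ} (hl : 2 ≤ l) :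
    ∃ U : ℝ, 0 < U ∧ ∀ m n : ℕ, m ≤ n → 1 ≤ n →
      (X.nTD l m : ℝ) ≤ U * (n : ℝ) ^ (l - 2) * (q : ℝ) ^ m := by
  obtain ⟨C, hC0, hC⟩ := hX.consts
  refine ⟨KU l C, KU_pos hl hC0, fun m n hmn hn => ?_⟩
  rw [nTD_eq_sum hX (by omega)]
  refine (sum_le_KU hX hl hC0 hC hmn hn).trans (le_of_eq ?_)
  ring

/-- A sum over an image. -/
theorem sum_image_le' {α β : Type*} [DecidableEq β] (s : Finset α) (f : α → β) (g : β → ℝ)
    (hg : ∀ b, 0 ≤ g b) : ∑ b ∈ s.image f, g b ≤ ∑ a ∈ s, g (f a) := by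
  rw [← sum_fiberwise_of_maps_to (fun a ha => mem_image_of_mem f ha)]
  refine sum_le_sum fun b hb => ?_
  obtain ⟨a, ha, rfl⟩ := mem_image.1 hb
  exact single_le_sum (f := fun x => g (f x)) (fun _ _ => hg _)
    (mem_filter.2 ⟨ha, rfl⟩)

/-- Two primes of the same degree `≥ N`. -/
def EDistN (N : ℕ) (D : Finset X.Pr) : Prop :=
  ∃ P ∈ D, ∃ Q ∈ D, N ≤ X.deg P ∧ X.deg P = X.deg Q ∧ P ≠ Q

open Classical in
theorem dist_le (hX : X.Ok q) {l : ℕ} (hl : 2 ≤ l) {C : ℝ} (hC0 : 0 ≤ C)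
    (hC : ∀ d : ℕ, 1 ≤ d → |(d : ℝ) * npr X d - (q : ℝ) ^ d| ≤ C * √((q : ℝ) ^ d)) (n N : ℕ)
    (hn : 1 ≤ n) (hN : 1 ≤ N) :
    ∑ D ∈ (Dn hX n).filter (EDistN N), ((l : ℝ) - 1) ^ D.card ≤
      KU l C * (1 + C) ^ 2 * ((l : ℝ) - 1) ^ 2 * (2 / N) * ((q : ℝ) ^ n * (n : ℝ) ^ (l - 2)) := by
  have hw := one_le_w hl
  have hK0 := KU_pos hl hC0
  have hKU : ∀ m, m ≤ n → ∑ D ∈ Dn hX m, ((l : ℝ) - 1) ^ D.card ≤
      KU l C * (q : ℝ) ^ m * (n : ℝ) ^ (l - 2) := fun m hm => sum_le_KU hX hl hC0 hC hm hn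
  set K := KU l C with hK
  set w : ℝ := (l : ℝ) - 1 with hwdef
  have hw0 : 0 < w := by linarith
  set Pd : ℕ → Finset X.Pr := fun d => (Ple hX n).filter fun P => X.deg P = d with hPd
  set Bd : Finset (Finset X.Pr) := (Dn hX n).filter (EDistN N) with hBd
  set T : Finset ℕ := (Icc N n).filter fun d => 2 * d ≤ n with hT
  set Sg : Finset (Σ _ : ℕ, (X.Pr × X.Pr) × Finset X.Pr) :=
    T.sigma fun d => (Pd d ×ˢ Pd d) ×ˢ Dn hX (n - 2 * d) with hSg
  set f : (Σ _ : ℕ, (X.Pr × X.Pr) × Finset X.Pr) → Finset X.Pr :=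
    fun y => insert y.2.1.1 (insert y.2.1.2 y.2.2) with hf
  have hsub : Bd ⊆ Sg.image f := by
    intro D hD
    rw [hBd, mem_filter, mem_Dn] at hD
    obtain ⟨hD, P, hP, Q, hQ, hN', hPQ, hne⟩ := hD
    have h1 : X.deg P + X.degS (D.erase P) = X.degS D := add_sum_erase D X.deg hP
    have hQ' : Q ∈ D.erase P := mem_erase.2 ⟨hne.symm, hQ⟩
    have h2 : X.deg Q + X.degS ((D.erase P).erase Q) = X.degS (D.erase P) :=
      add_sum_erase _ X.deg hQ'
    rw [mem_image]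
    refine ⟨⟨X.deg P, ((P, Q), (D.erase P).erase Q)⟩, ?_, ?_⟩
    · rw [hSg, mem_sigma, mem_product, mem_product]
      refine ⟨?_, ⟨?_, ?_⟩, ?_⟩
      · rw [hT, mem_filter, mem_Icc]
        simp only
        omega
      · rw [hPd, mem_filter, mem_Ple]
        refine ⟨?_, rfl⟩
        simp only
        omega
      · rw [hPd, mem_filter, mem_Ple]
        refine ⟨?_, hPQ.symm⟩
        simp only
        omega
      · rw [mem_Dn]
        simp only
        omega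
    · simp only [hf]
      rw [insert_erase hQ', insert_erase hP]
  have hcard : ∀ y, w ^ (f y).card ≤ w ^ 2 * w ^ y.2.2.card := by
    intro y
    rw [← pow_add]
    refine pow_le_pow_right₀ hw ?_
    simp only [hf]
    have h1 := card_insert_le y.2.1.1 (insert y.2.1.2 y.2.2)
    have h2 := card_insert_le y.2.1.2 y.2.2
    omega
  have h1 : ∑ D ∈ Bd, w ^ D.card ≤
      ∑ d ∈ T, (npr X d : ℝ) * npr X d * (w ^ 2 * ∑ D ∈ Dn hX (n - 2 * d), w ^ D.card) := by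
    calc ∑ D ∈ Bd, w ^ D.card
        ≤ ∑ D ∈ Sg.image f, w ^ D.card :=
          sum_le_sum_of_subset_of_nonneg hsub fun _ _ _ => pow_nonneg hw0.le _
      _ ≤ ∑ y ∈ Sg, w ^ (f y).card := sum_image_le' Sg f (fun D => w ^ D.card)
          fun D => pow_nonneg hw0.le _
      _ ≤ ∑ y ∈ Sg, w ^ 2 * w ^ y.2.2.card := sum_le_sum fun y _ => hcard y
      _ = ∑ d ∈ T, ∑ y ∈ (Pd d ×ˢ Pd d) ×ˢ Dn hX (n - 2 * d), w ^ 2 * w ^ y.2.card := by
          rw [hSg, sum_sigma]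
      _ = ∑ d ∈ T, (npr X d : ℝ) * npr X d *
            (w ^ 2 * ∑ D ∈ Dn hX (n - 2 * d), w ^ D.card) := by
          refine sum_congr rfl fun d hd => ?_
          rw [sum_product]
          simp only
          rw [sum_const, card_product, nsmul_eq_mul, ← mul_sum]
          rw [hT, mem_filter, mem_Icc] at hd
          have h5 : (Pd d).card = npr X d := card_deg hX hd.1.2
          rw [h5]
          push_cast
          ring
  refine h1.trans ?_
  have h4 : ∀ d ∈ T, (npr X d : ℝ) * npr X d * (w ^ 2 * ∑ D ∈ Dn hX (n - 2 * d), w ^ D.card) ≤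
      K * (1 + C) ^ 2 * w ^ 2 * ((q : ℝ) ^ n * (n : ℝ) ^ (l - 2)) * ((d : ℝ) ^ 2)⁻¹ := by
    intro d hd
    rw [hT, mem_filter, mem_Icc] at hd
    have hd1 : 1 ≤ d := hN.trans hd.1.1
    have hd0 : (0 : ℝ) < d := by exact_mod_cast hd1
    have h5 := npr_le hX hC0 hC d hd1
    have h6 : (npr X d : ℝ) ≤ (1 + C) * (q : ℝ) ^ d / d := by
      rw [le_div_iff₀ hd0, mul_comm]
      exact h5
    have h7 := hKU (n - 2 * d) (by omega)
    have hq := pow_pos hX.qpos d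
    have hq2 := pow_pos hX.qpos (n - 2 * d)
    have h8 : (q : ℝ) ^ n = (q : ℝ) ^ d * (q : ℝ) ^ d * (q : ℝ) ^ (n - 2 * d) := by
      rw [← pow_add, ← pow_add]
      congr 1
      omega
    have h9 : 0 ≤ ∑ D ∈ Dn hX (n - 2 * d), w ^ D.card :=
      sum_nonneg fun _ _ => pow_nonneg hw0.le _
    calc (npr X d : ℝ) * npr X d * (w ^ 2 * ∑ D ∈ Dn hX (n - 2 * d), w ^ D.card)
        ≤ ((1 + C) * (q : ℝ) ^ d / d) * ((1 + C) * (q : ℝ) ^ d / d) *
          (w ^ 2 * (K * (q : ℝ) ^ (n - 2 * d) * (n : ℝ) ^ (l - 2))) := by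
          refine mul_le_mul (mul_le_mul h6 h6 (Nat.cast_nonneg _) (by positivity))
            (mul_le_mul_of_nonneg_left h7 (by positivity)) (by positivity) (by positivity)
      _ = K * (1 + C) ^ 2 * w ^ 2 * ((q : ℝ) ^ n * (n : ℝ) ^ (l - 2)) * ((d : ℝ) ^ 2)⁻¹ := by
          rw [h8]
          field_simp
  refine (sum_le_sum h4).trans ?_
  rw [← mul_sum]
  have h9 : ∑ d ∈ T, ((d : ℝ) ^ 2)⁻¹ ≤ 2 / N := by
    have h10 := sum_Ioo_inv_sq_le (α := ℝ) (N - 1) (n + 1)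
    have h11 : ((N - 1 : ℕ) : ℝ) + 1 = N := by
      rw [Nat.cast_sub hN]
      push_cast
      ring
    rw [h11] at h10
    refine le_trans (sum_le_sum_of_subset_of_nonneg ?_ fun d _ _ => by positivity) h10
    intro d hd
    rw [hT, mem_filter, mem_Icc] at hd
    rw [mem_Ioo]
    omega
  have hq := pow_pos hX.qpos n
  calc K * (1 + C) ^ 2 * w ^ 2 * ((q : ℝ) ^ n * (n : ℝ) ^ (l - 2)) * ∑ d ∈ T, ((d : ℝ) ^ 2)⁻¹
      ≤ K * (1 + C) ^ 2 * w ^ 2 * ((q : ℝ) ^ n * (n : ℝ) ^ (l - 2)) * (2 / N) :=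
        mul_le_mul_of_nonneg_left h9 (by positivity)
    _ = _ := by ring

end Pool.Agent.SmL.PSys
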