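import Mathlib

/-!
SMITH-L (SmL), counting half, block K: a real sequence `a` with `a 0 = 1`, `a ≥ 0` and
`|n a n - z ∑_(j < n) a j| ≤ K ∑_(j < n) (3/4) ^ (n - j) a j` satisfies `a n ≥ c n ^ (z - 1)` for
large `n`.
-/

set_option autoImplicit false

open Finset

namespace Pool.Agent.SmL.PSys

private theorem Seq_geom (N : ℕ) :
    ∑ e ∈ range N, ((e : ℝ) + 1) * (3 / 4) ^ e = 16 - (16 + 4 * N) * (3 / 4) ^ N := by
  induction N with
  | zero => norm_num
  | succ N ih =>
    rw [sum_range_succ, ih, pow_succ]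
    push_cast
    ring

private theorem Seq_geom_le (n : ℕ) :
    ∑ j ∈ range n, ((n : ℝ) - j + 1) * (3 / 4) ^ (n - j) ≤ 16 := by
  have h1 : ∑ j ∈ range n, ((n : ℝ) - j + 1) * (3 / 4 : ℝ) ^ (n - j) =
      ∑ i ∈ range n, (((i + 1 : ℕ) : ℝ) + 1) * (3 / 4 : ℝ) ^ (i + 1) := by
    rw [← sum_range_reflect]
    refine sum_congr rfl fun j hj => ?_
    have hj' := mem_range.1 hj
    have e1 : n - (n - 1 - j) = j + 1 := by omega
    have e2 : ((n - 1 - j : ℕ) : ℝ) = n - (j + 1 : ℕ) := by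
      rw [show n - 1 - j = n - (j + 1) by omega, Nat.cast_sub (by omega)]
    rw [e1, e2]
    ring
  have h2 := Seq_geom (n + 1)
  rw [sum_range_succ'] at h2
  rw [h1]
  have h3 : (0 : ℝ) ≤ (16 + 4 * ((n + 1 : ℕ) : ℝ)) * (3 / 4) ^ (n + 1) := by positivity
  have h4 : (((0 : ℕ) : ℝ) + 1) * (3 / 4 : ℝ) ^ 0 = 1 := by norm_num
  rw [h4] at h2
  linarith

/-- The rising factorial. -/
private theorem Seq_asc (n z : ℕ) :
    (n : ℝ) * (n + 1).ascFactorial z = (n + z) * (n.ascFactorial z : ℝ) := by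
  have h := Nat.succ_ascFactorial n z
  have h2 : ((n * (n + 1).ascFactorial z : ℕ) : ℝ) = ((n + z) * n.ascFactorial z : ℕ) := by
    exact_mod_cast congrArg (Nat.cast (R := ℝ)) h
  push_cast at h2
  exact h2

/-- A sequence which is almost `z` times its own average is bounded from below. -/
theorem seq_lower (z : ℕ) (hz : 1 ≤ z) (a : ℕ → ℝ) (h0 : a 0 = 1) (hn : ∀ n, 0 ≤ a n) (K : ℝ)
    (hK : 0 ≤ K)
    (h : ∀ n : ℕ, 1 ≤ n → |(n : ℝ) * a n - z * ∑ j ∈ range n, a j| ≤
      K * ∑ j ∈ range n, (3 / 4 : ℝ) ^ (n - j) * a j) :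
    ∃ c : ℝ, 0 < c ∧ ∃ n₀ : ℕ, ∀ n ≥ n₀, c * (n : ℝ) ^ (z - 1) ≤ a n := by
  have hz1 : (1 : ℝ) ≤ z := by exact_mod_cast hz
  set s : ℕ → ℝ := fun n => ∑ j ∈ range n, a j with hs
  have hs1 : ∀ n, s (n + 1) = s n + a n := fun n => sum_range_succ a n
  have hsm : ∀ i n, i ≤ n → s i ≤ s n := fun i n hin =>
    sum_le_sum_of_subset_of_nonneg (range_subset_range.2 hin) fun j _ _ => hn j
  have hs0 : ∀ n, 1 ≤ n → 1 ≤ s n := by
    intro n hn1
    have h1 := hsm 1 n hn1
    have h2 : s 1 = 1 := by simp [hs, h0]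
    linarith
  -- the weighted sum is at most `s n`
  have hw : ∀ n, ∑ j ∈ range n, (3 / 4 : ℝ) ^ (n - j) * a j ≤ s n := by
    intro n
    refine sum_le_sum fun j _ => ?_
    have h1 : (3 / 4 : ℝ) ^ (n - j) ≤ 1 := pow_le_one₀ (by norm_num) (by norm_num)
    calc (3 / 4 : ℝ) ^ (n - j) * a j ≤ 1 * a j := mul_le_mul_of_nonneg_right h1 (hn j)
      _ = a j := one_mul _
  have hup : ∀ n : ℕ, 1 ≤ n → (n : ℝ) * a n ≤ (z + K) * s n := by
    intro n hn1
    have h1 := (abs_le.1 (h n hn1)).2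
    have h2 := mul_le_mul_of_nonneg_left (hw n) hK
    have h3 : (∑ j ∈ range n, a j) = s n := rfl
    rw [h3] at h1
    linarith
  have hj : ∀ n : ℕ, 1 ≤ n → ∀ j < n, (n : ℝ) * a j ≤ (z + K) * ((n : ℝ) - j + 1) * s n := by
    intro n hn1 j hjn
    have hsn := hs0 n hn1
    rcases Nat.eq_zero_or_pos j with rfl | hj0
    · rw [h0, mul_one, Nat.cast_zero, sub_zero]
      have e1 : (0 : ℝ) ≤ n := Nat.cast_nonneg _
      have e2 : (n : ℝ) ≤ (z + K) * ((n : ℝ) + 1) := by nlinarith
      have e3 : (z + K) * ((n : ℝ) + 1) * 1 ≤ (z + K) * ((n : ℝ) + 1) * s n :=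
        mul_le_mul_of_nonneg_left hsn (by positivity)
      linarith
    · have e1 := hup j hj0
      have e2 : (n : ℝ) ≤ j * ((n : ℝ) - j + 1) := by
        have f1 : (1 : ℝ) ≤ j := by exact_mod_cast hj0
        have f2 : (0 : ℝ) ≤ (n : ℝ) - j := by
          have : (j : ℝ) ≤ n := by exact_mod_cast hjn.le
          linarith
        nlinarith
      have e3 : (0 : ℝ) ≤ (n : ℝ) - j + 1 := by
        have : (j : ℝ) ≤ n := by exact_mod_cast hjn.le
        linarith
      calc (n : ℝ) * a j ≤ (j * ((n : ℝ) - j + 1)) * a j :=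
            mul_le_mul_of_nonneg_right e2 (hn j)
        _ = ((n : ℝ) - j + 1) * (j * a j) := by ring
        _ ≤ ((n : ℝ) - j + 1) * ((z + K) * s j) := mul_le_mul_of_nonneg_left e1 e3
        _ ≤ ((n : ℝ) - j + 1) * ((z + K) * s n) :=
            mul_le_mul_of_nonneg_left (mul_le_mul_of_nonneg_left (hsm j n hjn.le) (by positivity))
              e3
        _ = _ := by ring
  have hw2 : ∀ n : ℕ, 1 ≤ n → (n : ℝ) * ∑ j ∈ range n, (3 / 4 : ℝ) ^ (n - j) * a j ≤
      16 * (z + K) * s n := by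
    intro n hn1
    have hsn := hs0 n hn1
    calc (n : ℝ) * ∑ j ∈ range n, (3 / 4 : ℝ) ^ (n - j) * a j
        = ∑ j ∈ range n, (3 / 4 : ℝ) ^ (n - j) * (n * a j) := by
          rw [mul_sum]
          exact sum_congr rfl fun j _ => by ring
      _ ≤ ∑ j ∈ range n, (3 / 4 : ℝ) ^ (n - j) * ((z + K) * ((n : ℝ) - j + 1) * s n) :=
          sum_le_sum fun j hj' => mul_le_mul_of_nonneg_left (hj n hn1 j (mem_range.1 hj'))
            (by positivity)
      _ = ((z + K) * s n) * ∑ j ∈ range n, ((n : ℝ) - j + 1) * (3 / 4) ^ (n - j) := by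
          rw [mul_sum]
          exact sum_congr rfl fun j _ => by ring
      _ ≤ ((z + K) * s n) * 16 :=
          mul_le_mul_of_nonneg_left (Seq_geom_le n) (by positivity)
      _ = _ := by ring
  set K' : ℝ := 16 * K * (z + K) with hK'
  have hK'0 : 0 ≤ K' := by positivity
  have hlow : ∀ n : ℕ, 1 ≤ n → s n / n * (z - K' / n) ≤ a n := by
    intro n hn1
    have hn0 : (0 : ℝ) < n := by exact_mod_cast hn1
    have h1 := (abs_le.1 (h n hn1)).1
    have h3 : (∑ j ∈ range n, a j) = s n := rfl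
    rw [h3] at h1
    have h2 : K * ∑ j ∈ range n, (3 / 4 : ℝ) ^ (n - j) * a j ≤ K' * s n / n := by
      rw [le_div_iff₀ hn0]
      have := mul_le_mul_of_nonneg_left (hw2 n hn1) hK
      calc K * (∑ j ∈ range n, (3 / 4 : ℝ) ^ (n - j) * a j) * n
          = K * (n * ∑ j ∈ range n, (3 / 4 : ℝ) ^ (n - j) * a j) := by ring
        _ ≤ K * (16 * (z + K) * s n) := this
        _ = K' * s n := by rw [hK']; ring
    have h4 : z * s n - K' * s n / n ≤ n * a n := by linarith
    have h5 : s n / n * (z - K' / n) = (z * s n - K' * s n / n) / n := by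
      field_simp
    rw [h5, div_le_iff₀ hn0]
    linarith
  -- the rising factorial
  set b : ℕ → ℝ := fun n => (n.ascFactorial z : ℝ) with hb
  have hb1 : ∀ n : ℕ, (n : ℝ) ^ z ≤ b n := by
    intro n
    simp only [hb]
    exact_mod_cast Nat.pow_succ_le_ascFactorial n z
  have hb0 : ∀ n : ℕ, 1 ≤ n → 0 < b n := by
    intro n hn1
    have hn0 : (0 : ℝ) < n := by exact_mod_cast hn1
    exact lt_of_lt_of_le (by positivity) (hb1 n)
  set t : ℕ → ℝ := fun n => s n / b n with ht
  have ht0 : ∀ n, 1 ≤ n → 0 < t n := by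
    intro n hn1
    have h1 := hs0 n hn1
    exact div_pos (by linarith) (hb0 n hn1)
  have hstep : ∀ n : ℕ, 1 ≤ n → t n * (1 - K' / (n * (n + 1))) ≤ t (n + 1) := by
    intro n hn1
    have hn0 : (0 : ℝ) < n := by exact_mod_cast hn1
    have h1 := hlow n hn1
    have hbn := hb0 n hn1
    have hbn1 := hb0 (n + 1) (by omega)
    have h6 : (n : ℝ) * b (n + 1) = (n + z) * b n := Seq_asc n z
    have h2 : t (n + 1) = (s n + a n) / b (n + 1) := by
      simp only [ht]
      rw [hs1]
    have h7 : b (n + 1) = (n + z) / n * b n := by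
      field_simp
      linarith
    rw [h2, le_div_iff₀ hbn1]
    have hsn : 0 < s n := by
      have := hs0 n hn1
      linarith
    have h3 : t n * (1 - K' / (n * (n + 1))) * b (n + 1) =
        s n * ((n + z) / n) * (1 - K' / (n * (n + 1))) := by
      simp only [ht]
      rw [h7]
      field_simp
    rw [h3]
    have h8 : s n * ((n + z) / n) * (1 - K' / (n * (n + 1))) ≤ s n + s n / n * (z - K' / n) := by
      have h9 : s n + s n / n * (z - K' / n) = s n * ((n + z) / n) - s n * (K' / (n * n)) := by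
        field_simp
        ring
      have h10 : s n * ((n + z) / n) * (1 - K' / (n * (n + 1))) =
          s n * ((n + z) / n) - s n * (K' / (n * n) * ((n + z) / (n + 1))) := by
        field_simp
      rw [h9, h10]
      have h11 : (1 : ℝ) ≤ (n + z) / (n + 1) := by
        rw [le_div_iff₀ (by positivity)]
        linarith
      have h12 : K' / (n * n) * 1 ≤ K' / (n * n) * ((n + z) / (n + 1)) :=
        mul_le_mul_of_nonneg_left h11 (by positivity)
      have h13 := mul_le_mul_of_nonneg_left h12 hsn.le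
      linarith
    linarith
  obtain ⟨n1, hn1⟩ := exists_nat_ge (2 * K' + 1)
  have hn1' : (1 : ℝ) ≤ n1 := by linarith
  have hn1'' : 1 ≤ n1 := by exact_mod_cast hn1'
  have hind : ∀ n : ℕ, n1 ≤ n → t n1 * (1 - K' * (1 / n1 - 1 / n)) ≤ t n := by
    intro n hn
    induction n, hn using Nat.le_induction with
    | base => simp
    | succ n hn ih =>
      have hn0 : (0 : ℝ) < n := by
        have : (n1 : ℝ) ≤ n := by exact_mod_cast hn
        linarith
      have h1 := hstep n (by omega)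
      have hx : 0 ≤ K' * (1 / n1 - 1 / n) := by
        refine mul_nonneg hK'0 ?_
        have : (1 : ℝ) / n ≤ 1 / n1 :=
          one_div_le_one_div_of_le (by linarith) (by exact_mod_cast hn)
        linarith
      have hy : 0 ≤ K' / (n * (n + 1)) := by positivity
      have hy1 : K' / (n * (n + 1)) ≤ 1 := by
        rw [div_le_one (by positivity)]
        have : (n1 : ℝ) ≤ n := by exact_mod_cast hn
        nlinarith
      have e1 : (1 : ℝ) / n - 1 / (n + 1) = 1 / (n * (n + 1)) := by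
        field_simp
        ring
      calc t n1 * (1 - K' * (1 / n1 - 1 / ((n + 1 : ℕ) : ℝ)))
          = t n1 * (1 - K' * (1 / n1 - 1 / n) - K' / (n * (n + 1))) := by
            push_cast
            have e2 : (1 : ℝ) / (n + 1) = 1 / n - 1 / (n * (n + 1)) := by linarith
            rw [e2]
            ring
        _ ≤ t n1 * ((1 - K' * (1 / n1 - 1 / n)) * (1 - K' / (n * (n + 1)))) := by
            refine mul_le_mul_of_nonneg_left ?_ (ht0 n1 hn1'').le
            nlinarith [mul_nonneg hx hy]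
        _ = t n1 * (1 - K' * (1 / n1 - 1 / n)) * (1 - K' / (n * (n + 1))) := by ring
        _ ≤ t n * (1 - K' / (n * (n + 1))) := mul_le_mul_of_nonneg_right ih (by linarith)
        _ ≤ t (n + 1) := h1
  refine ⟨t n1 / 4, by have := ht0 n1 hn1''; positivity, n1, fun n hn => ?_⟩
  have hnn : (n1 : ℝ) ≤ n := by exact_mod_cast hn
  have hn0 : (0 : ℝ) < n := by linarith
  have h1 := hind n hn
  have h2 : K' * (1 / n1 - 1 / n) ≤ 1 / 2 := by
    have f1 : K' * (1 / n1 - 1 / n) ≤ K' * (1 / n1) := by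
      refine mul_le_mul_of_nonneg_left ?_ hK'0
      have : (0 : ℝ) ≤ 1 / n := by positivity
      linarith
    have f2 : K' * (1 / n1) ≤ 1 / 2 := by
      rw [mul_one_div, div_le_iff₀ (by linarith)]
      linarith
    linarith
  have h3 : K' / n ≤ 1 / 2 := by
    rw [div_le_iff₀ hn0]
    linarith
  have h4 := hlow n (by omega)
  have hT := ht0 n1 hn1''
  have h5 : t n1 / 2 ≤ t n := by
    refine le_trans ?_ h1
    nlinarith
  -- `s n ≥ t n * n ^ z`
  have h6 : t n1 / 2 * (n : ℝ) ^ z ≤ s n := by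
    have e1 : s n = t n * b n := by
      simp only [ht]
      have := hb0 n (by omega)
      field_simp
    rw [e1]
    exact mul_le_mul h5 (hb1 n) (by positivity) (ht0 n (by omega)).le
  have h7 : t n1 / 2 * (n : ℝ) ^ (z - 1) ≤ s n / n := by
    rw [le_div_iff₀ hn0]
    have e1 : (n : ℝ) ^ z = (n : ℝ) ^ (z - 1) * n := by
      rw [← pow_succ]
      congr 1
      omega
    rw [e1] at h6
    linarith
  have h8 : t n1 / 2 * (n : ℝ) ^ (z - 1) * (1 / 2) ≤ s n / n * (z - K' / n) := by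
    refine mul_le_mul h7 (by linarith) (by norm_num) ?_
    refine le_trans ?_ h7
    positivity
  calc t n1 / 4 * (n : ℝ) ^ (z - 1) = t n1 / 2 * (n : ℝ) ^ (z - 1) * (1 / 2) := by ring
    _ ≤ s n / n * (z - K' / n) := h8
    _ ≤ a n := h4

end Pool.Agent.SmL.PSys
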