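import Pool.Agent.Lib.SmL.K.Rankin
import Pool.Agent.Lib.SmL.K.Seq

/-!
SMITH-L (SmL), counting half, block K: the lower bound for the number of the twists of degree `n`
from the prime number theorem.

With `a n = ∑_(deg D = n) z ^ |D| / q ^ n`, marking one prime of a divisor gives
`|n a n - z ∑_(j < n) a j| ≤ K ∑_(j < n) (3/4) ^ (n - j) a j`, and this alone gives the lower bound
(`seq_lower`). `dd_of` : `X.DD l q`.
-/

set_option autoImplicit false

open Finset

namespace Pool.Agent.SmL.PSys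

variable {X : PSys} {q : ℕ}

/-- The number of the squarefree divisors of degree `n` with the weight `z ^ |D|`. -/
private noncomputable def Sc (hX : X.Ok q) (z : ℝ) (n : ℕ) : ℝ := ∑ D ∈ Dn hX n, z ^ D.card

open Classical in
/-- The divisors without `P`. -/
private noncomputable def Sw (hX : X.Ok q) (z : ℝ) (P : X.Pr) (n : ℕ) : ℝ :=
  ∑ D ∈ Dn hX n with P ∉ D, z ^ D.card

open Classical in
/-- The identity. -/
private theorem Lower_mark (hX : X.Ok q) (z : ℝ) (n : ℕ) :
    (n : ℝ) * Sc hX z n = ∑ P ∈ Ple hX n, (X.deg P : ℝ) * z * Sw hX z P (n - X.deg P) := by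
  have h1 : (n : ℝ) * Sc hX z n =
      ∑ x ∈ (Dn hX n).sigma (fun D => D), (X.deg x.2 : ℝ) * z ^ x.1.card := by
    rw [sum_sigma, Sc, mul_sum]
    refine sum_congr rfl fun D hD => ?_
    show (n : ℝ) * z ^ D.card = ∑ P ∈ D, (X.deg P : ℝ) * z ^ D.card
    rw [← sum_mul]
    congr 1
    rw [← mem_Dn.1 hD, degS]
    push_cast
    rfl
  have h2 : ∑ P ∈ Ple hX n, (X.deg P : ℝ) * z * Sw hX z P (n - X.deg P) =
      ∑ y ∈ (Ple hX n).sigma (fun P => (Dn hX (n - X.deg P)).filter fun D => P ∉ D),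
        (X.deg y.1 : ℝ) * z * z ^ y.2.card := by
    rw [sum_sigma]
    refine sum_congr rfl fun P _ => ?_
    rw [Sw, mul_sum]
  rw [h1, h2]
  refine sum_bij' (fun x _ => ⟨x.2, x.1.erase x.2⟩) (fun y _ => ⟨insert y.1 y.2, y.1⟩)
    ?_ ?_ ?_ ?_ ?_
  · rintro ⟨D, P⟩ hx
    rw [mem_sigma] at hx ⊢
    have hd : X.degS D = n := mem_Dn.1 hx.1
    have hP : P ∈ D := hx.2
    refine ⟨mem_Ple.2 (hd ▸ deg_le_degS hP), ?_⟩
    rw [mem_filter, mem_Dn]
    refine ⟨?_, notMem_erase _ _⟩
    have h5 : X.deg P + X.degS (D.erase P) = X.degS D := add_sum_erase D X.deg hP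
    show X.degS (D.erase P) = n - X.deg P
    omega
  · rintro ⟨P, D⟩ hy
    rw [mem_sigma] at hy ⊢
    have hP : X.deg P ≤ n := mem_Ple.1 hy.1
    have hD := hy.2
    rw [mem_filter, mem_Dn] at hD
    refine ⟨mem_Dn.2 ?_, mem_insert_self _ _⟩
    have h5 : X.degS (insert P D) = X.deg P + X.degS D := sum_insert hD.2
    have h6 : X.degS D = n - X.deg P := hD.1
    show X.degS (insert P D) = n
    omega
  · rintro ⟨D, P⟩ hx
    rw [mem_sigma] at hx
    have hP : P ∈ D := hx.2
    simp only [insert_erase hP]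
  · rintro ⟨P, D⟩ hy
    rw [mem_sigma] at hy
    have hD := hy.2
    rw [mem_filter] at hD
    have hD2 : P ∉ D := hD.2
    simp only [erase_insert hD2]
  · rintro ⟨D, P⟩ hx
    rw [mem_sigma] at hx
    have hP : P ∈ D := hx.2
    have h5 : D.card = (D.erase P).card + 1 := (card_erase_add_one hP).symm
    show (X.deg P : ℝ) * z ^ D.card = (X.deg P : ℝ) * z * z ^ (D.erase P).card
    rw [h5, pow_succ]
    ring

open Classical in
private theorem Lower_Sw_le (hX : X.Ok q) {z : ℝ} (hz : 0 ≤ z) (P : X.Pr) (n : ℕ) :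
    Sw hX z P n ≤ Sc hX z n :=
  sum_le_sum_of_subset_of_nonneg (filter_subset _ _) fun _ _ _ => pow_nonneg hz _

open Classical in
private theorem Lower_Sw_ge (hX : X.Ok q) {z : ℝ} (hz : 0 ≤ z) (P : X.Pr) (n : ℕ) :
    Sc hX z n ≤ Sw hX z P n + if X.deg P ≤ n then z * Sc hX z (n - X.deg P) else 0 := by
  have h1 : Sc hX z n = Sw hX z P n + ∑ D ∈ Dn hX n with P ∈ D, z ^ D.card := by
    rw [Sc, Sw, add_comm]
    exact (sum_filter_add_sum_filter_not _ _ _).symm
  have h2 : ∑ D ∈ Dn hX n with P ∈ D, z ^ D.card ≤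
      if X.deg P ≤ n then z * Sc hX z (n - X.deg P) else 0 := by
    split_ifs with h
    · have hinj : Set.InjOn (fun D : Finset X.Pr => D.erase P)
          ((Dn hX n).filter fun D => P ∈ D : Finset (Finset X.Pr)) := by
        intro D hD D' hD' he
        rw [mem_coe, mem_filter] at hD hD'
        simp only at he
        rw [← insert_erase hD.2, ← insert_erase hD'.2, he]
      calc ∑ D ∈ Dn hX n with P ∈ D, z ^ D.card
          = ∑ D ∈ Dn hX n with P ∈ D, z * z ^ (D.erase P).card := by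
            refine sum_congr rfl fun D hD => ?_
            rw [← card_erase_add_one (mem_filter.1 hD).2, pow_succ]
            ring
        _ = ∑ D' ∈ ((Dn hX n).filter fun D => P ∈ D).image (fun D => D.erase P),
              z * z ^ D'.card := by
            rw [sum_image hinj]
        _ ≤ ∑ D' ∈ Dn hX (n - X.deg P), z * z ^ D'.card := by
            refine sum_le_sum_of_subset_of_nonneg ?_ fun _ _ _ => mul_nonneg hz (pow_nonneg hz _)
            intro D' hD'
            rw [mem_image] at hD'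
            obtain ⟨D, hD, rfl⟩ := hD'
            rw [mem_filter, mem_Dn] at hD
            rw [mem_Dn]
            have h5 : X.deg P + X.degS (D.erase P) = X.degS D := add_sum_erase D X.deg hD.2
            show X.degS (D.erase P) = n - X.deg P
            omega
        _ = _ := by rw [Sc, mul_sum]
    · refine (sum_eq_zero ?_).le
      intro D hD
      rw [mem_filter, mem_Dn] at hD
      have := deg_le_degS hD.2
      omega
  linarith

private theorem Lower_sqrt {q : ℕ} (hq : 2 ≤ q) (d : ℕ) :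
    √((q : ℝ) ^ d) ≤ (3 / 4) ^ d * (q : ℝ) ^ d := by
  have hq' : (2 : ℝ) ≤ q := by exact_mod_cast hq
  rw [Real.sqrt_le_left (by positivity), mul_pow, ← pow_mul, ← pow_mul, mul_comm d 2, pow_mul,
    pow_mul, ← mul_pow]
  refine pow_le_pow_left₀ (by positivity) ?_ d
  nlinarith

private theorem Lower_inv {q : ℕ} (hq : 2 ≤ q) (d : ℕ) :
    1 ≤ (3 / 4 : ℝ) ^ (2 * d) * (q : ℝ) ^ d := by
  have hq' : (2 : ℝ) ≤ q := by exact_mod_cast hq
  rw [pow_mul, ← mul_pow]
  refine one_le_pow₀ ?_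
  norm_num
  linarith

open Classical in
/-- The marking inequality. -/
private theorem Lower_main (hX : X.Ok q) {C : ℝ} (hC0 : 0 ≤ C)
    (hC : ∀ d : ℕ, 1 ≤ d → |(d : ℝ) * npr X d - (q : ℝ) ^ d| ≤ C * √((q : ℝ) ^ d))
    {z : ℝ} (hz : 0 ≤ z) (n : ℕ) :
    |(n : ℝ) * (Sc hX z n / (q : ℝ) ^ n) - z * ∑ j ∈ range n, Sc hX z j / (q : ℝ) ^ j| ≤
      (z * C + z * (z * (1 + C))) *
        ∑ j ∈ range n, (3 / 4 : ℝ) ^ (n - j) * (Sc hX z j / (q : ℝ) ^ j) := by
  have hq' : (2 : ℝ) ≤ q := by exact_mod_cast hX.two_le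
  have hq0 : (0 : ℝ) < q := by linarith
  set A : ℕ → ℝ := fun m => Sc hX z m with hA
  have hA0 : ∀ m, 0 ≤ A m := fun m => sum_nonneg fun _ _ => pow_nonneg hz _
  set π : ℕ → ℝ := fun d => (d : ℝ) * npr X d with hπ
  -- grouped by degree
  have hgrp : (n : ℝ) * A n = ∑ d ∈ Icc 1 n, ∑ P ∈ Ple hX n with X.deg P = d,
      (d : ℝ) * z * Sw hX z P (n - d) := by
    have h2 : ∀ P ∈ Ple hX n, X.deg P ∈ Icc 1 n := fun P hP =>
      mem_Icc.2 ⟨hX.pos P, mem_Ple.1 hP⟩
    rw [hA]
    simp only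
    rw [Lower_mark hX z n, ← sum_fiberwise_of_maps_to h2]
    refine sum_congr rfl fun d _ => sum_congr rfl fun P hP => ?_
    rw [(mem_filter.1 hP).2]
  have hupd : ∀ d ∈ Icc 1 n, ∑ P ∈ Ple hX n with X.deg P = d,
      (d : ℝ) * z * Sw hX z P (n - d) ≤ z * (π d * A (n - d)) := by
    intro d hd
    calc ∑ P ∈ Ple hX n with X.deg P = d, (d : ℝ) * z * Sw hX z P (n - d)
        ≤ ∑ P ∈ Ple hX n with X.deg P = d, (d : ℝ) * z * A (n - d) := by
          refine sum_le_sum fun P _ => mul_le_mul_of_nonneg_left ?_ (by positivity)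
          exact Lower_Sw_le hX hz P (n - d)
      _ = z * (π d * A (n - d)) := by
          rw [sum_const, card_deg hX (mem_Icc.1 hd).2, nsmul_eq_mul]
          simp only [hπ]
          ring
  have hlod : ∀ d ∈ Icc 1 n,
      z * (π d * A (n - d)) - z * (π d * (if 2 * d ≤ n then z * A (n - 2 * d) else 0)) ≤
      ∑ P ∈ Ple hX n with X.deg P = d, (d : ℝ) * z * Sw hX z P (n - d) := by
    intro d hd
    calc z * (π d * A (n - d)) - z * (π d * (if 2 * d ≤ n then z * A (n - 2 * d) else 0))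
        = ∑ P ∈ Ple hX n with X.deg P = d,
            (d : ℝ) * z * (A (n - d) - (if 2 * d ≤ n then z * A (n - 2 * d) else 0)) := by
          rw [sum_const, card_deg hX (mem_Icc.1 hd).2, nsmul_eq_mul]
          simp only [hπ]
          ring
      _ ≤ _ := by
          refine sum_le_sum fun P hP => mul_le_mul_of_nonneg_left ?_ (by positivity)
          have h1 := Lower_Sw_ge hX hz P (n - d)
          rw [(mem_filter.1 hP).2] at h1
          have h3 : (if d ≤ n - d then z * Sc hX z (n - d - d) else 0) =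
              if 2 * d ≤ n then z * A (n - 2 * d) else 0 := by
            by_cases h4 : 2 * d ≤ n
            · rw [if_pos h4, if_pos (by omega), show n - d - d = n - 2 * d by omega]
            · rw [if_neg h4, if_neg (by have := (mem_Icc.1 hd).1; omega)]
          rw [h3] at h1
          have h5 : A (n - d) = Sc hX z (n - d) := rfl
          rw [h5]
          linarith
  -- the bounds for `π d`
  have hπu : ∀ d ∈ Icc 1 n, π d ≤ (1 + C * (3 / 4) ^ d) * (q : ℝ) ^ d := by
    intro d hd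
    have h1 := (abs_le.1 (hC d (mem_Icc.1 hd).1)).2
    have h2 := mul_le_mul_of_nonneg_left (Lower_sqrt hX.two_le d) hC0
    simp only [hπ]
    linarith
  have hπl : ∀ d ∈ Icc 1 n, (1 - C * (3 / 4) ^ d) * (q : ℝ) ^ d ≤ π d := by
    intro d hd
    have h1 := (abs_le.1 (hC d (mem_Icc.1 hd).1)).1
    have h2 := mul_le_mul_of_nonneg_left (Lower_sqrt hX.two_le d) hC0
    simp only [hπ]
    linarith
  have hrew : ∀ F : ℕ → ℝ, ∑ d ∈ Icc 1 n, F d = ∑ j ∈ range n, F (n - j) := by
    intro F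
    refine sum_bij' (fun d _ => n - d) (fun j _ => n - j) ?_ ?_ ?_ ?_ ?_
    · intro d hd
      have := mem_Icc.1 hd
      exact mem_range.2 (by omega)
    · intro j hj
      have := mem_range.1 hj
      exact mem_Icc.2 (by omega)
    · intro d hd
      have := mem_Icc.1 hd
      omega
    · intro j hj
      have := mem_range.1 hj
      omega
    · intro d hd
      have := mem_Icc.1 hd
      rw [show n - (n - d) = d by omega]
  have hqn : (0 : ℝ) < (q : ℝ) ^ n := by positivity
  have hqj : ∀ j ≤ n, (q : ℝ) ^ n = (q : ℝ) ^ (n - j) * (q : ℝ) ^ j := by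
    intro j hj
    rw [← pow_add]
    congr 1
    omega
  set T : ℝ := ∑ j ∈ range n, (3 / 4 : ℝ) ^ (n - j) * (A j / (q : ℝ) ^ j) with hT
  set s : ℝ := ∑ j ∈ range n, A j / (q : ℝ) ^ j with hs
  -- upper bound
  have hU : (n : ℝ) * A n ≤ (q : ℝ) ^ n * (z * (s + C * T)) := by
    rw [hgrp]
    calc ∑ d ∈ Icc 1 n, ∑ P ∈ Ple hX n with X.deg P = d, (d : ℝ) * z * Sw hX z P (n - d)
        ≤ ∑ d ∈ Icc 1 n, z * ((1 + C * (3 / 4) ^ d) * (q : ℝ) ^ d * A (n - d)) :=
          sum_le_sum fun d hd => (hupd d hd).trans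
            (mul_le_mul_of_nonneg_left (mul_le_mul_of_nonneg_right (hπu d hd) (hA0 _)) hz)
      _ = z * ∑ d ∈ Icc 1 n, (1 + C * (3 / 4) ^ d) * (q : ℝ) ^ d * A (n - d) := by
          rw [mul_sum]
      _ = z * ∑ j ∈ range n, (1 + C * (3 / 4) ^ (n - j)) * (q : ℝ) ^ (n - j) *
            A (n - (n - j)) := by
          rw [hrew fun d => (1 + C * (3 / 4) ^ d) * (q : ℝ) ^ d * A (n - d)]
      _ = z * ((q : ℝ) ^ n * (s + C * T)) := by
          congr 1
          rw [hs, hT, mul_sum, ← sum_add_distrib, mul_sum]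
          refine sum_congr rfl fun j hj => ?_
          have hj' := mem_range.1 hj
          rw [show n - (n - j) = j by omega, hqj j hj'.le]
          have : (q : ℝ) ^ j ≠ 0 := by positivity
          field_simp
      _ = _ := by ring
  -- the double terms
  have hW : ∑ d ∈ Icc 1 n, π d * (if 2 * d ≤ n then z * A (n - 2 * d) else 0) ≤
      (q : ℝ) ^ n * (z * (1 + C) * T) := by
    have h1 : ∀ d ∈ Icc 1 n, π d * (if 2 * d ≤ n then z * A (n - 2 * d) else 0) ≤
        if 2 * d ≤ n then z * (1 + C) * (q : ℝ) ^ n *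
          ((3 / 4 : ℝ) ^ (2 * d) * (A (n - 2 * d) / (q : ℝ) ^ (n - 2 * d))) else 0 := by
      intro d hd
      split_ifs with h2
      · have h3 : π d ≤ (1 + C) * (q : ℝ) ^ d := by
          refine (hπu d hd).trans (mul_le_mul_of_nonneg_right ?_ (by positivity))
          have : C * (3 / 4 : ℝ) ^ d ≤ C * 1 :=
            mul_le_mul_of_nonneg_left (pow_le_one₀ (by norm_num) (by norm_num)) hC0
          linarith
        have h4 : (q : ℝ) ^ n = (q : ℝ) ^ d * (q : ℝ) ^ d * (q : ℝ) ^ (n - 2 * d) := by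
          rw [← pow_add, ← pow_add]
          congr 1
          omega
        have h5 := Lower_inv hX.two_le d
        have h6 : (q : ℝ) ^ (n - 2 * d) ≠ 0 := by positivity
        have h7 : 0 ≤ z * A (n - 2 * d) := mul_nonneg hz (hA0 _)
        calc π d * (z * A (n - 2 * d)) ≤ (1 + C) * (q : ℝ) ^ d * (z * A (n - 2 * d)) :=
              mul_le_mul_of_nonneg_right h3 h7
          _ = (1 + C) * (q : ℝ) ^ d * (z * A (n - 2 * d)) * 1 := (mul_one _).symm
          _ ≤ (1 + C) * (q : ℝ) ^ d * (z * A (n - 2 * d)) *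
                ((3 / 4 : ℝ) ^ (2 * d) * (q : ℝ) ^ d) :=
              mul_le_mul_of_nonneg_left h5
                (mul_nonneg (mul_nonneg (by linarith) (by positivity)) h7)
          _ = _ := by
              rw [h4]
              field_simp
      · rw [mul_zero]
    refine (sum_le_sum h1).trans ?_
    rw [← sum_filter, ← mul_sum]
    have h2 : ∑ d ∈ Icc 1 n with 2 * d ≤ n,
        (3 / 4 : ℝ) ^ (2 * d) * (A (n - 2 * d) / (q : ℝ) ^ (n - 2 * d)) ≤ T := by
      have h3 : ∑ d ∈ Icc 1 n with 2 * d ≤ n,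
          (3 / 4 : ℝ) ^ (2 * d) * (A (n - 2 * d) / (q : ℝ) ^ (n - 2 * d)) =
          ∑ j ∈ ((Icc 1 n).filter fun d => 2 * d ≤ n).image fun d => n - 2 * d,
            (3 / 4 : ℝ) ^ (n - j) * (A j / (q : ℝ) ^ j) := by
        rw [sum_image]
        · refine sum_congr rfl fun d hd => ?_
          have hd' := mem_filter.1 hd
          rw [show n - (n - 2 * d) = 2 * d by omega]
        · intro d hd d' hd' he
          rw [mem_coe, mem_filter, mem_Icc] at hd hd'
          simp only at he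
          omega
      rw [h3, hT]
      refine sum_le_sum_of_subset_of_nonneg ?_ fun j _ _ => ?_
      · intro j hj
        rw [mem_image] at hj
        obtain ⟨d, hd, rfl⟩ := hj
        rw [mem_filter, mem_Icc] at hd
        exact mem_range.2 (by omega)
      · exact mul_nonneg (by positivity) (div_nonneg (hA0 _) (by positivity))
    calc z * (1 + C) * (q : ℝ) ^ n * _ ≤ z * (1 + C) * (q : ℝ) ^ n * T :=
          mul_le_mul_of_nonneg_left h2 (by positivity)
      _ = _ := by ring
  -- lower bound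
  have hL : z * ((q : ℝ) ^ n * (s - C * T)) - z * ((q : ℝ) ^ n * (z * (1 + C) * T)) ≤
      (n : ℝ) * A n := by
    rw [hgrp]
    have h1 : ∑ d ∈ Icc 1 n, (z * (π d * A (n - d)) -
        z * (π d * (if 2 * d ≤ n then z * A (n - 2 * d) else 0))) ≤ _ := sum_le_sum hlod
    rw [sum_sub_distrib, ← mul_sum, ← mul_sum] at h1
    have h2 : (q : ℝ) ^ n * (s - C * T) ≤ ∑ d ∈ Icc 1 n, π d * A (n - d) := by
      calc (q : ℝ) ^ n * (s - C * T)
          = ∑ j ∈ range n, (1 - C * (3 / 4) ^ (n - j)) * (q : ℝ) ^ (n - j) *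
              A (n - (n - j)) := by
            rw [hs, hT, mul_sum, ← sum_sub_distrib, mul_sum]
            refine sum_congr rfl fun j hj => ?_
            have hj' := mem_range.1 hj
            rw [show n - (n - j) = j by omega, hqj j hj'.le]
            have : (q : ℝ) ^ j ≠ 0 := by positivity
            field_simp
        _ = ∑ d ∈ Icc 1 n, (1 - C * (3 / 4) ^ d) * (q : ℝ) ^ d * A (n - d) :=
            (hrew fun d => (1 - C * (3 / 4) ^ d) * (q : ℝ) ^ d * A (n - d)).symm
        _ ≤ _ := sum_le_sum fun d hd => mul_le_mul_of_nonneg_right (hπl d hd) (hA0 _)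
    have h3 := mul_le_mul_of_nonneg_left h2 hz
    have h4 := mul_le_mul_of_nonneg_left hW hz
    linarith
  have hT0 : 0 ≤ T := sum_nonneg fun j _ =>
    mul_nonneg (by positivity) (div_nonneg (hA0 _) (by positivity))
  have hfin : (n : ℝ) * (A n / (q : ℝ) ^ n) = (n : ℝ) * A n / (q : ℝ) ^ n := by ring
  rw [hfin, abs_le]
  constructor
  · rw [neg_le_sub_iff_le_add, ← sub_le_iff_le_add]
    rw [le_div_iff₀ hqn]
    calc (z * s - (z * C + z * (z * (1 + C))) * T) * (q : ℝ) ^ n
        = z * ((q : ℝ) ^ n * (s - C * T)) - z * ((q : ℝ) ^ n * (z * (1 + C) * T)) := by ring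
      _ ≤ _ := hL
  · rw [sub_le_iff_le_add, div_le_iff₀ hqn]
    calc (n : ℝ) * A n ≤ (q : ℝ) ^ n * (z * (s + C * T)) := hU
      _ ≤ (q : ℝ) ^ n * ((z * C + z * (z * (1 + C))) * T + z * s) := by
          refine mul_le_mul_of_nonneg_left ?_ hqn.le
          have h1 : 0 ≤ z * (z * (1 + C)) * T := by positivity
          linarith
      _ = _ := by ring

/-- **The lower bound for the number of the twists of degree `n`.** -/
theorem dd_of (hX : X.Ok q) {l : ℕ} (hl : 2 ≤ l) : X.DD l q := by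
  obtain ⟨C, hC0, hC⟩ := hX.consts
  have hl1 : 1 ≤ l := by omega
  have hq' : (2 : ℝ) ≤ q := by exact_mod_cast hX.two_le
  have hz : (0 : ℝ) ≤ (l : ℝ) - 1 := by
    have : (1 : ℝ) ≤ l := by exact_mod_cast hl1
    linarith
  have hcast : ((l - 1 : ℕ) : ℝ) = (l : ℝ) - 1 := by
    rw [Nat.cast_sub hl1, Nat.cast_one]
  have hS : ∀ n, (X.nTD l n : ℝ) = Sc hX ((l : ℝ) - 1) n := fun n => nTD_eq_sum hX hl1 n
  obtain ⟨c, hc, n₀, hn₀⟩ := seq_lower (l - 1) (by omega)
    (fun n => (X.nTD l n : ℝ) / (q : ℝ) ^ n) (by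
      have h1 : (X.nTD l 0 : ℝ) = 1 := by
        rw [nTD_eq hX hl1, Sz_zero]
      simp only [h1, pow_zero, div_one]) (fun n => by positivity)
    (((l : ℝ) - 1) * C + ((l : ℝ) - 1) * (((l : ℝ) - 1) * (1 + C))) (by positivity)
    (fun n _ => by
      have h := Lower_main hX hC0 hC hz n
      simp only [hS, hcast]
      exact h)
  refine ⟨c, hc, n₀, fun n hn => ?_⟩
  have h1 : c * (n : ℝ) ^ (l - 1 - 1) ≤ (X.nTD l n : ℝ) / (q : ℝ) ^ n := hn₀ n hn
  rw [le_div_iff₀ (by positivity)] at h1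
  rw [show l - 2 = l - 1 - 1 by omega]
  exact h1

end Pool.Agent.SmL.PSys
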