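import Pool.Agent.Lib.SmL.K.KThm

/-!
SMITH-L (SmL), counting half, block K: the twists of degree `n` whose large primes have distinct
degrees are the points of the grids with exponents.

`pt Ds x` : the divisor given by the small primes `Ds` and the point `x`; `sum_pt`, `degS_pt`;
`ptE Ds x ex` : the twist given by `Ds`, `x` and the exponents `ex : Ds ⊕ T → ZMod l`, its support
is `pt Ds x` if `ex` has no zeros; `grid_count` : from a bound on every nice grid, for all exponents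
without zeros, to a bound for all nice twists; `marks_card` : with marks; `kgrid` : the conclusion
for all twists.
-/

set_option autoImplicit false

open Finset

namespace Pool.Agent.SmL

namespace PSys

variable {X : PSys}

open Classical in
/-- The divisor given by the small primes `Ds` and the point `x`. -/
noncomputable def pt (Ds : Finset X.Pr) {T : Finset ℕ} (x : (t : T) → X.Of t) : Finset X.Pr :=
  Ds ∪ univ.image fun t : T => (x t).1

theorem mem_pt {Ds : Finset X.Pr} {T : Finset ℕ} {x : (t : T) → X.Of t} {P : X.Pr} :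
    P ∈ pt Ds x ↔ P ∈ Ds ∨ ∃ t : T, (x t).1 = P := by
  classical
  rw [pt, mem_union, mem_image]
  simp

/-- The condition on `(Ds, T)`. -/
structure GPre (N : ℕ) (Ds : Finset X.Pr) (T : Finset ℕ) : Prop where
  sml : ∀ P ∈ Ds, X.deg P < N
  large : ∀ t ∈ T, N ≤ t

theorem sum_pt {A : Type*} [AddCommMonoid A] {N : ℕ} {Ds : Finset X.Pr} {T : Finset ℕ}
    (h : GPre N Ds T) (x : (t : T) → X.Of t) (f : X.Pr → A) :
    ∑ P ∈ pt Ds x, f P = ∑ P ∈ Ds, f P + ∑ t : T, f (x t).1 := by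
  classical
  have hd : Disjoint Ds (univ.image fun t : T => (x t).1) := by
    rw [disjoint_left]
    intro P hP hP'
    rw [mem_image] at hP'
    obtain ⟨t, -, rfl⟩ := hP'
    have h1 := h.sml _ hP
    have h2 := h.large t.1 t.2
    have h3 := (x t).2
    omega
  have hi : Function.Injective fun t : T => (x t).1 := by
    intro t t' htt
    have h1 := (x t).2
    have h2 := (x t').2
    have h3 : (x t).1 = (x t').1 := htt
    rw [h3] at h1
    exact Subtype.ext (h1.symm.trans h2)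
  rw [pt, sum_union hd, sum_image (hi.injOn)]

theorem degS_pt {N : ℕ} {Ds : Finset X.Pr} {T : Finset ℕ} (h : GPre N Ds T)
    (x : (t : T) → X.Of t) : X.degS (pt Ds x) = X.degS Ds + ∑ t ∈ T, t := by
  rw [degS, sum_pt h, ← sum_coe_sort T]
  refine congrArg _ (sum_congr rfl fun t _ => ?_)
  exact (x t).2

/-- A large prime of the divisor is the entry of the point. -/
theorem eq_of_mem_pt {N : ℕ} {Ds : Finset X.Pr} {T : Finset ℕ} (h : GPre N Ds T)
    {x : (t : T) → X.Of t} {P : X.Pr} (hP : P ∈ pt Ds x) (hN : N ≤ X.deg P) :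
    ∃ ht : X.deg P ∈ T, (x ⟨X.deg P, ht⟩).1 = P := by
  rcases mem_pt.1 hP with hP | ⟨t, rfl⟩
  · exact absurd (h.sml P hP) (not_lt.2 hN)
  · have h1 := (x t).2
    have ht : X.deg (x t).1 ∈ T := by
      rw [h1]
      exact t.2
    refine ⟨ht, ?_⟩
    have h2 : (⟨X.deg (x t).1, ht⟩ : T) = t := Subtype.ext h1
    rw [h2]

theorem mem_pt_small {N : ℕ} {Ds : Finset X.Pr} {T : Finset ℕ} (h : GPre N Ds T)
    {x : (t : T) → X.Of t} {P : X.Pr} : P ∈ Ds ↔ P ∈ pt Ds x ∧ X.deg P < N := by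
  constructor
  · intro hP
    exact ⟨mem_pt.2 (Or.inl hP), h.sml P hP⟩
  · rintro ⟨hP, hN⟩
    rcases mem_pt.1 hP with hP | ⟨t, rfl⟩
    · exact hP
    · have h1 := h.large t.1 t.2
      have h2 := (x t).2
      omega

theorem mem_T {N : ℕ} {Ds : Finset X.Pr} {T : Finset ℕ} (h : GPre N Ds T)
    {x : (t : T) → X.Of t} {t : ℕ} : t ∈ T ↔ N ≤ t ∧ ∃ P ∈ pt Ds x, X.deg P = t := by
  constructor
  · intro ht
    exact ⟨h.large t ht, (x ⟨t, ht⟩).1, mem_pt.2 (Or.inr ⟨_, rfl⟩), (x ⟨t, ht⟩).2⟩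
  · rintro ⟨hN, P, hP, rfl⟩
    exact (eq_of_mem_pt h hP hN).1

theorem pt_inj {N : ℕ} {Ds Ds' : Finset X.Pr} {T T' : Finset ℕ} (h : GPre N Ds T)
    (h' : GPre N Ds' T') {x : (t : T) → X.Of t} {x' : (t : T') → X.Of t}
    (heq : pt Ds x = pt Ds' x') : Ds = Ds' ∧ T = T' := by
  constructor
  · ext P
    rw [mem_pt_small h (x := x), mem_pt_small h' (x := x'), heq]
  · ext t
    rw [mem_T h (x := x), mem_T h' (x := x'), heq]

theorem pt_inj_point {N : ℕ} {Ds : Finset X.Pr} {T : Finset ℕ} (h : GPre N Ds T)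
    {x x' : (t : T) → X.Of t} (heq : pt Ds x = pt Ds x') : x = x' := by
  funext t
  have h1 : (x t).1 ∈ pt Ds x' := heq ▸ mem_pt.2 (Or.inr ⟨t, rfl⟩)
  have h2 := (x t).2
  have h3 := h.large t.1 t.2
  obtain ⟨ht, h4⟩ := eq_of_mem_pt h h1 (by omega)
  have h5 : (⟨X.deg (x t).1, ht⟩ : T) = t := Subtype.ext h2
  rw [h5] at h4
  exact Subtype.ext h4.symm

/-- Every divisor whose large primes have distinct degrees is a point of a grid. -/
theorem exists_pt (N : ℕ) (D : Finset X.Pr)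
    (hD : ∀ P ∈ D, ∀ Q ∈ D, N ≤ X.deg P → X.deg P = X.deg Q → P = Q) :
    ∃ (Ds : Finset X.Pr) (T : Finset ℕ) (x : (t : T) → X.Of t), GPre N Ds T ∧ pt Ds x = D ∧
      (∀ P, P ∈ Ds ↔ P ∈ D ∧ X.deg P < N) ∧ (∀ t, t ∈ T ↔ ∃ P ∈ D, N ≤ X.deg P ∧ X.deg P = t) := by
  classical
  set Ds := D.filter fun P => X.deg P < N with hDs
  set T := (D.filter fun P => N ≤ X.deg P).image X.deg with hT
  have hT' : ∀ t, t ∈ T ↔ ∃ P ∈ D, N ≤ X.deg P ∧ X.deg P = t := by
    intro t
    rw [hT, mem_image]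
    constructor
    · rintro ⟨P, hP, rfl⟩
      rw [mem_filter] at hP
      exact ⟨P, hP.1, hP.2, rfl⟩
    · rintro ⟨P, hP, h1, rfl⟩
      exact ⟨P, mem_filter.2 ⟨hP, h1⟩, rfl⟩
  have hch : ∀ t : T, ∃ P ∈ D, N ≤ X.deg P ∧ X.deg P = t.1 := fun t => (hT' t.1).1 t.2
  choose y hy1 hy2 hy3 using hch
  have hpre : GPre N Ds T := by
    refine ⟨fun P hP => (mem_filter.1 hP).2, fun t ht => ?_⟩
    obtain ⟨P, -, h1, rfl⟩ := (hT' t).1 ht
    exact h1
  refine ⟨Ds, T, fun t => ⟨y t, hy3 t⟩, hpre, ?_, fun P => by rw [hDs, mem_filter], hT'⟩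
  ext P
  rw [mem_pt]
  constructor
  · rintro (hP | ⟨t, rfl⟩)
    · exact (mem_filter.1 hP).1
    · exact hy1 t
  · intro hP
    rcases lt_or_ge (X.deg P) N with h1 | h1
    · exact Or.inl (mem_filter.2 ⟨hP, h1⟩)
    · right
      have ht : X.deg P ∈ T := (hT' _).2 ⟨P, hP, h1, rfl⟩
      refine ⟨⟨X.deg P, ht⟩, ?_⟩
      exact hD _ (hy1 _) _ hP (hy2 _) (hy3 _)

/-! ### Exponents -/

/-- The twist given by the small primes `Ds`, the point `x` and the exponents `ex`. -/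
noncomputable def ptE {l : ℕ} (Ds : Finset X.Pr) {T : Finset ℕ} (x : (t : T) → X.Of t)
    (ex : Ds ⊕ T → ZMod l) : X.Pr →₀ ZMod l :=
  ∑ P : Ds, Finsupp.single P.1 (ex (Sum.inl P)) + ∑ t : T, Finsupp.single (x t).1 (ex (Sum.inr t))

/-- Linear functionals of the exponents. -/
theorem sum_ptE {l : ℕ} (Ds : Finset X.Pr) {T : Finset ℕ} (x : (t : T) → X.Of t)
    (ex : Ds ⊕ T → ZMod l) (f : X.Pr → ZMod l) :
    ∑ P ∈ (ptE Ds x ex).support, ptE Ds x ex P * f P =
      ∑ P : Ds, ex (Sum.inl P) * f P.1 + ∑ t : T, ex (Sum.inr t) * f (x t).1 := by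
  have h1 : ∀ c : X.Pr →₀ ZMod l,
      ∑ P ∈ c.support, c P * f P = Finsupp.linearCombination (ZMod l) f c := fun c => by
    rw [Finsupp.linearCombination_apply, Finsupp.sum]
    rfl
  rw [h1, ptE, map_add, map_sum, map_sum]
  simp only [Finsupp.linearCombination_single, smul_eq_mul]

section ptE

variable {l N : ℕ} {Ds : Finset X.Pr} {T : Finset ℕ}

theorem ptE_small (h : GPre N Ds T) (x : (t : T) → X.Of t) (ex : Ds ⊕ T → ZMod l) (P : Ds) :
    ptE Ds x ex P.1 = ex (Sum.inl P) := by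
  classical
  rw [ptE, Finsupp.add_apply, Finsupp.finsetSum_apply, Finsupp.finsetSum_apply]
  have h1 : ∑ t : T, (Finsupp.single (x t).1 (ex (Sum.inr t))) P.1 = 0 := by
    refine sum_eq_zero fun t _ => Finsupp.single_eq_of_ne ?_
    intro he
    have h1 := h.sml _ P.2
    have h2 := h.large t.1 t.2
    have h3 := (x t).2
    rw [← he] at h3
    omega
  have h2 : ∑ Q : Ds, (Finsupp.single Q.1 (ex (Sum.inl Q))) P.1 = ex (Sum.inl P) := by
    rw [sum_eq_single P]
    · rw [Finsupp.single_eq_same]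
    · intro Q _ hQ
      refine Finsupp.single_eq_of_ne ?_
      exact fun he => hQ (Subtype.ext he.symm)
    · exact fun he => absurd (mem_univ P) he
  rw [h1, h2, add_zero]

theorem ptE_large (h : GPre N Ds T) (x : (t : T) → X.Of t) (ex : Ds ⊕ T → ZMod l) (t : T) :
    ptE Ds x ex (x t).1 = ex (Sum.inr t) := by
  classical
  rw [ptE, Finsupp.add_apply, Finsupp.finsetSum_apply, Finsupp.finsetSum_apply]
  have h1 : ∑ Q : Ds, (Finsupp.single Q.1 (ex (Sum.inl Q))) (x t).1 = 0 := by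
    refine sum_eq_zero fun Q _ => Finsupp.single_eq_of_ne ?_
    intro he
    have h1 := h.sml _ Q.2
    have h2 := h.large t.1 t.2
    have h3 := (x t).2
    rw [he] at h3
    omega
  have h2 : ∑ s : T, (Finsupp.single (x s).1 (ex (Sum.inr s))) (x t).1 = ex (Sum.inr t) := by
    rw [sum_eq_single t]
    · rw [Finsupp.single_eq_same]
    · intro s _ hs
      refine Finsupp.single_eq_of_ne ?_
      intro he
      apply hs
      apply Subtype.ext
      rw [← (x s).2, ← (x t).2, he]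
    · exact fun he => absurd (mem_univ t) he
  rw [h1, h2, zero_add]

theorem ptE_not (x : (t : T) → X.Of t) (ex : Ds ⊕ T → ZMod l) {P : X.Pr} (hP : P ∉ pt Ds x) :
    ptE Ds x ex P = 0 := by
  classical
  rw [ptE, Finsupp.add_apply, Finsupp.finsetSum_apply, Finsupp.finsetSum_apply]
  rw [mem_pt, not_or] at hP
  have h1 : ∑ Q : Ds, (Finsupp.single Q.1 (ex (Sum.inl Q))) P = 0 := by
    refine sum_eq_zero fun Q _ => Finsupp.single_eq_of_ne ?_
    rintro rfl
    exact hP.1 Q.2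
  have h2 : ∑ t : T, (Finsupp.single (x t).1 (ex (Sum.inr t))) P = 0 := by
    refine sum_eq_zero fun t _ => Finsupp.single_eq_of_ne ?_
    intro he
    exact hP.2 ⟨t, he.symm⟩
  rw [h1, h2, add_zero]

/-- The support of the twist of a point. -/
theorem support_ptE (h : GPre N Ds T) (x : (t : T) → X.Of t) {ex : Ds ⊕ T → ZMod l}
    (hex : ∀ j, ex j ≠ 0) : (ptE Ds x ex).support = pt Ds x := by
  ext P
  rw [Finsupp.mem_support_iff]
  constructor
  · intro hP
    by_contra hcon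
    exact hP (ptE_not x ex hcon)
  · intro hP
    rcases mem_pt.1 hP with hP | ⟨t, rfl⟩
    · rw [ptE_small h x ex ⟨P, hP⟩]
      exact hex _
    · rw [ptE_large h x ex t]
      exact hex _

theorem ptE_inj_point (h : GPre N Ds T) {x x' : (t : T) → X.Of t} {ex ex' : Ds ⊕ T → ZMod l}
    (hex : ∀ j, ex j ≠ 0) (hex' : ∀ j, ex' j ≠ 0) (heq : ptE Ds x ex = ptE Ds x' ex') :
    x = x' ∧ ex = ex' := by
  have h1 : pt Ds x = pt Ds x' := by
    rw [← support_ptE h x hex, ← support_ptE h x' hex', heq]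
  have h2 := pt_inj_point h h1
  subst h2
  refine ⟨rfl, ?_⟩
  funext j
  rcases j with P | t
  · rw [← ptE_small h x ex P, ← ptE_small h x ex' P, heq]
  · rw [← ptE_large h x ex t, ← ptE_large h x ex' t, heq]

end ptE

/-- Every twist whose large primes have distinct degrees is a point of a grid with exponents. -/
theorem exists_ptE {l : ℕ} (N : ℕ) (c : X.Pr →₀ ZMod l)
    (hD : ∀ P ∈ c.support, ∀ Q ∈ c.support, N ≤ X.deg P → X.deg P = X.deg Q → P = Q) :
    ∃ (Ds : Finset X.Pr) (T : Finset ℕ) (x : (t : T) → X.Of t) (ex : Ds ⊕ T → ZMod l),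
      GPre N Ds T ∧ (∀ j, ex j ≠ 0) ∧ pt Ds x = c.support ∧ ptE Ds x ex = c := by
  obtain ⟨Ds, T, x, hpre, hpt, -, -⟩ := exists_pt N c.support hD
  have hex : ∀ j, (Sum.elim (fun P : Ds => c P.1) (fun t : T => c (x t).1) : Ds ⊕ T → ZMod l) j ≠
      0 := by
    rintro (P | t)
    · have : P.1 ∈ c.support := by
        rw [← hpt]
        exact mem_pt.2 (Or.inl P.2)
      exact Finsupp.mem_support_iff.1 this
    · have : (x t).1 ∈ c.support := by
        rw [← hpt]
        exact mem_pt.2 (Or.inr ⟨t, rfl⟩)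
      exact Finsupp.mem_support_iff.1 this
  refine ⟨Ds, T, x, Sum.elim (fun P : Ds => c P.1) (fun t : T => c (x t).1), hpre, hex, hpt, ?_⟩
  ext P
  by_cases hP : P ∈ pt Ds x
  · rcases mem_pt.1 hP with hP | ⟨t, rfl⟩
    · rw [ptE_small hpre x _ ⟨P, hP⟩]
      rfl
    · rw [ptE_large hpre x _ t]
      rfl
  · rw [ptE_not x _ hP]
    rw [hpt] at hP
    exact (Finsupp.notMem_support_iff.1 hP).symm

/-! ### Counting -/

/-- The grid of a nice divisor is nice. -/
theorem grN_of_nice {l m0 : ℕ} {c0 δ : ℝ} {n : ℕ} {Ds : Finset X.Pr} {T : Finset ℕ}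
    {x : (t : T) → X.Of t} (hpre : GPre (N0 n) Ds T) (hn : X.degS (pt Ds x) = n)
    (h : NiceN X l m0 c0 δ n (pt Ds x)) : GrN X l m0 c0 δ n Ds T where
  deg := by rw [← degS_pt hpre x, hn]
  few := by
    have h1 : (pt Ds x).card = Ds.card + T.card := by
      rw [card_eq_sum_ones, sum_pt hpre]
      simp
    rw [← h1]
    exact h.few
  large := hpre.large
  sml := hpre.sml
  many := by
    classical
    refine h.many.trans ?_
    have h1 : Nat.card {P : X.Pr // P ∈ pt Ds x ∧ N0 n ≤ X.deg P ∧ m0 ∣ X.deg P} ≤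
        Nat.card (T.filter fun t => m0 ∣ t) := by
      refine Nat.card_le_card_of_injective (fun P => ⟨X.deg P.1, ?_⟩) ?_
      · rw [mem_filter]
        exact ⟨(mem_T hpre).2 ⟨P.2.2.1, P.1, P.2.1, rfl⟩, P.2.2.2⟩
      · rintro ⟨P, hP⟩ ⟨Q, hQ⟩ hPQ
        have h2 : X.deg P = X.deg Q := congrArg Subtype.val hPQ
        exact Subtype.ext (h.dist P hP.1 Q hQ.1 hP.2.1 h2)
    have h3 : Nat.card (T.filter fun t => m0 ∣ t) = (T.filter fun t => m0 ∣ t).card := by
      rw [Nat.card_eq_fintype_card, Fintype.card_coe]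
    rw [h3] at h1
    exact_mod_cast h1
  small := by
    have h1 : Nat.card {P : X.Pr // P ∈ pt Ds x ∧ X.deg P < N0 n} = Ds.card :=
      Nat.subtype_card _ fun P => mem_pt_small hpre
    rw [← h1]
    exact h.small

variable {q : ℕ}

theorem Ok.finite_pts (hX : X.Ok q) (T : Finset ℕ) : Finite ((t : T) → X.Of t) := by
  have : ∀ t : T, Finite (X.Of t) := fun t => hX.fin t
  exact Pi.finite

/-- The finite set of the twists of degree `n`. -/
noncomputable def TDf (hX : X.Ok q) {l : ℕ} (hl : 1 ≤ l) (n : ℕ) : Finset (X.Pr →₀ ZMod l) :=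
  (Set.finite_coe_iff.1 (hX.finite_TD hl n) :
    {c : X.Pr →₀ ZMod l | X.degS c.support = n}.Finite).toFinset

theorem mem_TDf {hX : X.Ok q} {l : ℕ} {hl : 1 ≤ l} {n : ℕ} {c : X.Pr →₀ ZMod l} :
    c ∈ TDf hX hl n ↔ X.degS c.support = n := by
  rw [TDf, Set.Finite.mem_toFinset]
  rfl

theorem card_TDf_filter (hX : X.Ok q) {l : ℕ} (hl : 1 ≤ l) (n : ℕ)
    (E : (X.Pr →₀ ZMod l) → Prop) [DecidablePred E] :
    Nat.card {c : X.TD l n // E c.1} = ((TDf hX hl n).filter E).card := by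
  rw [← Nat.card_eq_finsetCard]
  refine Nat.card_congr ⟨fun c => ⟨c.1.1, mem_filter.2 ⟨mem_TDf.2 c.1.2, c.2⟩⟩,
    fun c => ⟨⟨c.1, mem_TDf.1 (mem_filter.1 c.2).1⟩, (mem_filter.1 c.2).2⟩,
    fun _ => rfl, fun _ => rfl⟩

theorem card_TDf (hX : X.Ok q) {l : ℕ} (hl : 1 ≤ l) (n : ℕ) :
    X.nTD l n = (TDf hX hl n).card := by
  rw [← Nat.card_eq_finsetCard, nTD]
  exact Nat.card_congr ⟨fun c => ⟨c.1, mem_TDf.2 c.2⟩, fun c => ⟨c.1, mem_TDf.1 c.2⟩,
    fun _ => rfl, fun _ => rfl⟩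

/-- From a bound on every nice grid, for all exponents without zeros, to a bound for the nice
twists. -/
theorem grid_count (hX : X.Ok q) {l : ℕ} (hl : 1 ≤ l) {m0 : ℕ} {c0 δ : ℝ} {n : ℕ}
    (Bad : (X.Pr →₀ ZMod l) → Prop) {ε : ℝ}
    (hε : 0 ≤ ε) (H : ∀ (Ds : Finset X.Pr) (T : Finset ℕ), GrN X l m0 c0 δ n Ds T →
      ∀ ex : Ds ⊕ T → ZMod l, (∀ j, ex j ≠ 0) →
      (Nat.card {x : (t : T) → X.Of t // Bad (ptE Ds x ex)} : ℝ) ≤
        ε * Nat.card ((t : T) → X.Of t)) :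
    (Nat.card {c : X.TD l n // NiceN X l m0 c0 δ n c.1.support ∧ Bad c.1} : ℝ) ≤
      ε * X.nTD l n := by
  classical
  have : NeZero l := ⟨by omega⟩
  -- the finite set of the nice grids
  set Gs : Finset (Finset X.Pr × Finset ℕ) :=
    ((Ple hX n).powerset ×ˢ (range (n + 1)).powerset).filter fun g => GrN X l m0 c0 δ n g.1 g.2
    with hGs
  have hmem : ∀ g : Finset X.Pr × Finset ℕ, GrN X l m0 c0 δ n g.1 g.2 → g ∈ Gs := by
    intro g hg
    rw [hGs, mem_filter, mem_product, mem_powerset, mem_powerset]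
    refine ⟨⟨subset_Ple hX (by have := hg.deg; omega), fun t ht => ?_⟩, hg⟩
    rw [mem_range]
    have h1 : t ≤ ∑ s ∈ g.2, s := single_le_sum (f := fun s => s) (fun _ _ => Nat.zero_le _) ht
    have := hg.deg
    omega
  have hfin : ∀ g : Finset X.Pr × Finset ℕ, Finite ((t : g.2) → X.Of t) := fun g =>
    hX.finite_pts g.2
  let hft : ∀ g : Finset X.Pr × Finset ℕ, Fintype ((t : g.2) → X.Of t) := fun g =>
    Fintype.ofFinite _
  -- the grids with exponents
  set Ge : Finset (Σ g : Finset X.Pr × Finset ℕ, (g.1 ⊕ g.2 → ZMod l)) :=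
    Gs.sigma fun g => univ.filter fun ex : g.1 ⊕ g.2 → ZMod l => ∀ j, ex j ≠ 0 with hGe
  -- the points of one grid, as twists
  set im : (Σ g : Finset X.Pr × Finset ℕ, (g.1 ⊕ g.2 → ZMod l)) → Finset (X.Pr →₀ ZMod l) :=
    fun g => univ.image fun x : (t : g.1.2) → X.Of t => ptE g.1.1 x g.2 with him
  set imB : (Σ g : Finset X.Pr × Finset ℕ, (g.1 ⊕ g.2 → ZMod l)) → Finset (X.Pr →₀ ZMod l) :=
    fun g => (im g).filter Bad with himB
  have hgr : ∀ g ∈ Ge, GrN X l m0 c0 δ n g.1.1 g.1.2 := by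
    intro g hg
    rw [hGe, mem_sigma] at hg
    exact (mem_filter.1 hg.1).2
  have hpre : ∀ g ∈ Ge, GPre (N0 n) g.1.1 g.1.2 := fun g hg => ⟨(hgr g hg).sml, (hgr g hg).large⟩
  have hex : ∀ g ∈ Ge, ∀ j, g.2 j ≠ 0 := by
    intro g hg
    rw [hGe, mem_sigma] at hg
    exact (mem_filter.1 hg.2).2
  have him_card : ∀ g ∈ Ge, (im g).card = Nat.card ((t : g.1.2) → X.Of t) := by
    intro g hg
    rw [him, card_image_of_injective _ fun x x' h =>
      (ptE_inj_point (hpre g hg) (hex g hg) (hex g hg) h).1, card_univ, Nat.card_eq_fintype_card]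
  have himB_card : ∀ g ∈ Ge, (imB g).card =
      Nat.card {x : (t : g.1.2) → X.Of t // Bad (ptE g.1.1 x g.2)} := by
    intro g hg
    have h1 : imB g = (univ.filter fun x : (t : g.1.2) → X.Of t => Bad (ptE g.1.1 x g.2)).image
        fun x => ptE g.1.1 x g.2 := by
      ext D
      rw [himB, him, mem_filter, mem_image, mem_image]
      constructor
      · rintro ⟨⟨x, -, rfl⟩, hB⟩
        exact ⟨x, mem_filter.2 ⟨mem_univ _, hB⟩, rfl⟩
      · rintro ⟨x, hx, rfl⟩
        exact ⟨⟨x, mem_univ _, rfl⟩, (mem_filter.1 hx).2⟩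
    rw [h1, card_image_of_injective _ fun x x' h =>
      (ptE_inj_point (hpre g hg) (hex g hg) (hex g hg) h).1]
    exact (Nat.subtype_card _ fun x => by simp).symm
  -- disjointness
  have hdis : ∀ g ∈ Ge, ∀ g' ∈ Ge, g ≠ g' → Disjoint (im g) (im g') := by
    intro g hg g' hg' hne
    rw [disjoint_left]
    intro D hD hD'
    rw [him, mem_image] at hD hD'
    obtain ⟨x, -, rfl⟩ := hD
    obtain ⟨x', -, hx'⟩ := hD'
    have hp := hpre g hg
    have hp' := hpre g' hg'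
    have he := hex g hg
    have he' := hex g' hg'
    have hs : pt g.1.1 x = pt g'.1.1 x' := by
      rw [← support_ptE hp x he, ← support_ptE hp' x' he', hx']
    obtain ⟨⟨Ds, T⟩, ex⟩ := g
    obtain ⟨⟨Ds', T'⟩, ex'⟩ := g'
    obtain ⟨e1, e2⟩ := pt_inj hp hp' hs
    simp only at e1 e2
    subst e1 e2
    have e3 := (ptE_inj_point hp he he' hx'.symm).2
    simp only at e3
    subst e3
    exact hne rfl
  -- the nice bad twists
  have hA : Nat.card {c : X.TD l n // NiceN X l m0 c0 δ n c.1.support ∧ Bad c.1} ≤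
      ∑ g ∈ Ge, (imB g).card := by
    rw [card_TDf_filter hX hl n fun c => NiceN X l m0 c0 δ n c.support ∧ Bad c]
    refine (card_le_card ?_).trans card_biUnion_le
    intro c hc
    rw [mem_filter, mem_TDf] at hc
    obtain ⟨hd, hnice, hbad⟩ := hc
    obtain ⟨Ds, T, x, ex, hp, hex', hpt, hc'⟩ := exists_ptE (N0 n) c hnice.dist
    rw [← hpt] at hnice hd
    rw [mem_biUnion]
    refine ⟨⟨(Ds, T), ex⟩, ?_, ?_⟩
    · rw [hGe, mem_sigma]
      exact ⟨hmem _ (grN_of_nice hp hd hnice), mem_filter.2 ⟨mem_univ _, hex'⟩⟩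
    · rw [himB, mem_filter]
      refine ⟨?_, hbad⟩
      rw [him, mem_image]
      exact ⟨x, mem_univ _, hc'⟩
  have hB : ∑ g ∈ Ge, (im g).card ≤ X.nTD l n := by
    rw [card_TDf hX hl, ← card_biUnion hdis]
    refine card_le_card fun D hD => ?_
    rw [mem_biUnion] at hD
    obtain ⟨g, hg, hD⟩ := hD
    rw [him, mem_image] at hD
    obtain ⟨x, -, rfl⟩ := hD
    rw [mem_TDf, support_ptE (hpre g hg) x (hex g hg), degS_pt (hpre g hg), (hgr g hg).deg]
  calc (Nat.card {c : X.TD l n // NiceN X l m0 c0 δ n c.1.support ∧ Bad c.1} : ℝ)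
      ≤ ∑ g ∈ Ge, ((imB g).card : ℝ) := by exact_mod_cast hA
    _ ≤ ∑ g ∈ Ge, ε * ((im g).card : ℝ) := by
        refine sum_le_sum fun g hg => ?_
        rw [himB_card g hg, him_card g hg]
        exact H g.1.1 g.1.2 (hgr g hg) g.2 (hex g hg)
    _ = ε * ((∑ g ∈ Ge, (im g).card : ℕ) : ℝ) := by
        rw [← mul_sum]
        push_cast
        rfl
    _ ≤ ε * X.nTD l n := mul_le_mul_of_nonneg_left (by exact_mod_cast hB) hε

/-- With marks: the proportion of the marked points is the proportion of the points. -/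
theorem marks_card (hX : X.Ok q) {Rr : Type} [Finite Rr] [Nonempty Rr] (T : Finset ℕ)
    (p : ((t : T) → X.Of t) → Prop) {ε : ℝ}
    (h : (Nat.card {x : (t : T) → X.Of t × Rr // p fun t => (x t).1} : ℝ) ≤
      ε * Nat.card ((t : T) → X.Of t × Rr)) :
    (Nat.card {x : (t : T) → X.Of t // p x} : ℝ) ≤ ε * Nat.card ((t : T) → X.Of t) := by
  have hf := hX.finite_pts T
  have e1 : Nat.card {x : (t : T) → X.Of t × Rr // p fun t => (x t).1} =
      Nat.card {x : (t : T) → X.Of t // p x} * Nat.card (T → Rr) := by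
    rw [← Nat.card_prod]
    refine Nat.card_congr ⟨fun x => (⟨fun t => (x.1 t).1, x.2⟩, fun t => (x.1 t).2),
      fun y => ⟨fun t => (y.1.1 t, y.2 t), y.1.2⟩, fun _ => rfl, fun _ => rfl⟩
  have e2 : Nat.card ((t : T) → X.Of t × Rr) =
      Nat.card ((t : T) → X.Of t) * Nat.card (T → Rr) := by
    rw [← Nat.card_prod]
    exact Nat.card_congr ⟨fun x => (fun t => (x t).1, fun t => (x t).2),
      fun y t => (y.1 t, y.2 t), fun _ => rfl, fun _ => rfl⟩
  rw [e1, e2] at h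
  push_cast at h
  have h0 : (0 : ℝ) < Nat.card (T → Rr) := by exact_mod_cast Nat.card_pos
  rw [← mul_assoc] at h
  exact le_of_mul_le_mul_right h h0

/-- Nice or not. -/
theorem card_le_nice (hX : X.Ok q) {l : ℕ} (hl : 1 ≤ l) (m0 : ℕ) (c0 δ : ℝ) (n : ℕ)
    (Bad : (X.Pr →₀ ZMod l) → Prop) :
    (Nat.card {c : X.TD l n // Bad c.1} : ℝ) ≤
      Nat.card {c : X.TD l n // ¬ NiceN X l m0 c0 δ n c.1.support} +
      Nat.card {c : X.TD l n // NiceN X l m0 c0 δ n c.1.support ∧ Bad c.1} := by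
  classical
  have e1 : Nat.card {c : X.TD l n // Bad c.1} ≤
      Nat.card {c : X.TD l n // ¬ NiceN X l m0 c0 δ n c.1.support} +
      Nat.card {c : X.TD l n // NiceN X l m0 c0 δ n c.1.support ∧ Bad c.1} := by
    rw [card_TDf_filter hX hl n Bad,
      card_TDf_filter hX hl n fun c => ¬ NiceN X l m0 c0 δ n c.support,
      card_TDf_filter hX hl n fun c => NiceN X l m0 c0 δ n c.support ∧ Bad c]
    refine (card_le_card ?_).trans (card_union_le _ _)
    intro D hD
    rw [mem_filter] at hD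
    rw [mem_union, mem_filter, mem_filter]
    by_cases h : NiceN X l m0 c0 δ n D.support
    · exact Or.inr ⟨hD.1, h, hD.2⟩
    · exact Or.inl ⟨hD.1, h⟩
  exact_mod_cast e1

/-- **Conclusion of block K**: a property which is rare on every nice grid of marked points, for all
exponents without zeros, is rare among all the twists. -/
theorem kgrid (hX : X.Ok q) {l : ℕ} (hl : 2 ≤ l) (m0 : ℕ) (hm : 1 ≤ m0) (c0 : ℝ)
    (hc : c0 ≤ 1 / (4 * m0)) {Rr : Type} [Finite Rr] [Nonempty Rr]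
    (Bad : ℕ → (X.Pr →₀ ZMod l) → Prop)
    (H : ∀ ε : ℝ, 0 < ε → ∃ δ : ℝ, 0 < δ ∧ ∃ n₀, ∀ n ≥ n₀, ∀ (Ds : Finset X.Pr) (T : Finset ℕ),
      GrN X l m0 c0 δ n Ds T → ∀ ex : Ds ⊕ T → ZMod l, (∀ j, ex j ≠ 0) →
        (Nat.card {x : (t : T) → X.Of t × Rr // Bad n (ptE Ds (fun t => (x t).1) ex)} : ℝ) ≤
          ε * Nat.card ((t : T) → X.Of t × Rr)) :
    ∀ ε : ℝ, 0 < ε → ∃ n₀, ∀ n ≥ n₀,
      (Nat.card {c : X.TD l n // Bad n c.1} : ℝ) ≤ ε * X.nTD l n := by
  intro ε hε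
  obtain ⟨δ, hδ, n₁, h1⟩ := H (ε / 2) (by positivity)
  obtain ⟨n₂, h2⟩ := kthm hX hl m0 hm c0 hc (ε / 2) δ (by positivity) hδ
  refine ⟨max n₁ n₂, fun n hn => ?_⟩
  have h3 := h2 n (le_trans (le_max_right _ _) hn)
  have h4 := grid_count hX (l := l) (by omega) (m0 := m0) (c0 := c0) (δ := δ) (n := n) (Bad n)
    (by positivity : (0 : ℝ) ≤ ε / 2) (fun Ds T hG ex hex =>
      marks_card hX T (fun x => Bad n (ptE Ds x ex))
        (h1 n (le_trans (le_max_left _ _) hn) Ds T hG ex hex))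
  have e2 := card_le_nice hX (l := l) (by omega) m0 c0 δ n (Bad n)
  linarith

end PSys

/-! ### The vector of a point -/

section vec

variable {l : ℕ} {A G V V1 Pl : Type} [CommRing A] [Group G] [AddCommGroup V] [Module A V]
  [DistribMulAction G V] [AddCommGroup V1] [Module (ZMod l) V1]

namespace CData

variable {S : Sys l A G V V1 Pl} {X : PSys} (cd : CData S X)

/-- The character of the twist of a point. -/
theorem chiD_ptE {Ds : Finset X.Pr} {T : Finset ℕ}
    (r0 : {g : G // g ∈ cd.R}) (x : cd.MPts T) (ex : JG Ds T → ZMod l) :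
    cd.chiD (PSys.ptE Ds (fun t => (x t).1) ex) = cd.chiN ex (cd.vec r0 Ds x) := by
  funext s
  rw [chiD, chiN, PSys.sum_ptE, Fintype.sum_sum_type]
  rfl

theorem pVecN_vec {N : ℕ} {Ds : Finset X.Pr} {T : Finset ℕ} (h : PSys.GPre N Ds T)
    (r0 : {g : G // g ∈ cd.R}) (x : cd.MPts T) : cd.PVecN (cd.vec r0 Ds x) := by
  have hs : ∀ (P : Ds) (t : T), P.1 ≠ (x t).1.1 := by
    intro P t he
    have h1 := h.sml P.1 P.2
    have h2 := h.large t.1 t.2
    have h3 := (x t).1.2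
    rw [he] at h1
    omega
  rintro (P | t) (P' | t') he
  · exact congrArg Sum.inl (Subtype.ext he)
  · exact absurd he (hs P t')
  · exact absurd he.symm (hs P' t)
  · have h1 := (x t).1.2
    have h2 := (x t').1.2
    have h3 : (x t).1.1 = (x t').1.1 := he
    rw [h3] at h1
    exact congrArg Sum.inr (Subtype.ext (h1.symm.trans h2))

theorem degN_vec {Ds : Finset X.Pr} {T : Finset ℕ}
    (r0 : {g : G // g ∈ cd.R}) (x : cd.MPts T) :
    cd.degN (cd.vec r0 Ds x) = X.degS Ds + ∑ t ∈ T, t := by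
  rw [degN, Fintype.sum_sum_type, PSys.degS, ← sum_coe_sort Ds, ← sum_coe_sort T]
  refine congrArg _ (sum_congr rfl fun t _ => ?_)
  exact (x t).1.2

end CData

end vec

end Pool.Agent.SmL
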