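import Pool.Agent.Lib.SmL.K.Anat
import Pool.Agent.Lib.SmL.K.Lower

/-!
SMITH-L (SmL), counting half, block K: almost all twists of degree `n` are nice (`kthm`).
-/

set_option autoImplicit false

open Finset Filter

namespace Pool.Agent.SmL.PSys

variable {X : PSys} {q : ℕ}

theorem log_nat_tendsto : Tendsto (fun n : ℕ => Real.log n) atTop atTop :=
  Real.tendsto_log_atTop.comp tendsto_natCast_atTop_atTop

/-- The analytic input. -/
theorem tend (K b : ℝ) {a : ℝ} (ha : 0 < a) :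
    Tendsto (fun n : ℕ => Real.exp (K - a * Real.log n + b * Real.log (Real.log n))) atTop
      (nhds 0) := by
  have h1 : Tendsto (fun x : ℝ => K - a * x + b * Real.log x) atTop atBot := by
    have h2 : ∀ᶠ x : ℝ in atTop, b * Real.log x ≤ a / 2 * x := by
      have h3 := Real.isLittleO_log_id_atTop.const_mul_left b
      have h4 := h3.bound (show 0 < a / 2 by positivity)
      filter_upwards [h4, eventually_ge_atTop 0] with x hx hx0
      rw [Real.norm_eq_abs, Real.norm_eq_abs, id_eq, abs_of_nonneg hx0] at hx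
      exact (le_abs_self _).trans hx
    have h5 : Tendsto (fun x : ℝ => K + -(a / 2) * x) atTop atBot :=
      tendsto_atBot_add_const_left atTop K
        ((tendsto_const_mul_atBot_of_neg (by linarith)).2 tendsto_id)
    refine tendsto_atBot_mono' atTop ?_ h5
    filter_upwards [h2] with x hx
    linarith
  exact Real.tendsto_exp_atBot.comp (h1.comp log_nat_tendsto)

/-- Eventually `Real.log n ≥ 1`. -/
theorem one_le_log : ∀ᶠ n : ℕ in atTop, 1 ≤ Real.log n :=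
  log_nat_tendsto.eventually_ge_atTop 1

theorem N0_tendsto : Tendsto N0 atTop atTop := by
  refine tendsto_nat_floor_atTop.comp ?_
  exact (tendsto_pow_atTop (by norm_num)).comp log_nat_tendsto

theorem log_N0_le {n : ℕ} (hn : 1 ≤ Real.log n) :
    Real.log (N0 n) ≤ 3 * Real.log (Real.log n) := by
  have h1 : (1 : ℝ) ≤ Real.log n ^ 3 := one_le_pow₀ hn
  have h2 : 1 ≤ N0 n := Nat.le_floor (by exact_mod_cast h1)
  have h3 : (N0 n : ℝ) ≤ Real.log n ^ 3 := Nat.floor_le (by positivity)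
  have h4 : (0 : ℝ) < N0 n := by exact_mod_cast h2
  calc Real.log (N0 n) ≤ Real.log (Real.log n ^ 3) := Real.log_le_log h4 h3
    _ = 3 * Real.log (Real.log n) := by
      rw [Real.log_pow]
      norm_num

/-- Small degree. -/
def PSm (N d : ℕ) : Prop := d < N

/-- Large degree, divisible by `m0`. -/
def PMa (N m0 d : ℕ) : Prop := N ≤ d ∧ m0 ∣ d

/-- Degree divisible by `m0`. -/
def PMu (m0 d : ℕ) : Prop := m0 ∣ d

open Classical in
/-- The harmonic sum below `N0`. -/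
theorem harm_small (n N : ℕ) : ∑ d ∈ Icc 1 n with PSm N d, 1 / (d : ℝ) ≤ 1 + Real.log N := by
  refine le_trans (sum_le_sum_of_subset_of_nonneg ?_ fun d _ _ => by positivity) (harm_le N)
  intro d hd
  rw [mem_filter, mem_Icc, PSm] at hd
  rw [mem_Icc]
  omega

open Classical in
/-- The harmonic sum over the multiples of `m0`. -/
theorem harm_mul (n m0 : ℕ) (hm : 1 ≤ m0) (hn : 1 ≤ n) :
    1 / (m0 : ℝ) * (Real.log n - Real.log m0) ≤ ∑ d ∈ Icc 1 n with PMu m0 d, 1 / (d : ℝ) := by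
  have hm0 : (0 : ℝ) < m0 := by exact_mod_cast hm
  have hn0 : (0 : ℝ) < n := by exact_mod_cast hn
  have h1 : ∑ e ∈ Icc 1 (n / m0), 1 / ((m0 * e : ℕ) : ℝ) ≤
      ∑ d ∈ Icc 1 n with PMu m0 d, 1 / (d : ℝ) := by
    have hinj : Set.InjOn (fun e => m0 * e) (Icc 1 (n / m0) : Finset ℕ) := by
      intro e _ e' _ he
      exact Nat.eq_of_mul_eq_mul_left hm he
    rw [← sum_image (f := fun d : ℕ => 1 / (d : ℝ)) hinj]
    refine sum_le_sum_of_subset_of_nonneg ?_ fun d _ _ => by positivity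
    intro d hd
    rw [mem_image] at hd
    obtain ⟨e, he, rfl⟩ := hd
    rw [mem_Icc] at he
    rw [mem_filter, mem_Icc]
    refine ⟨⟨Nat.mul_pos hm he.1, ?_⟩, dvd_mul_right _ _⟩
    have := (Nat.le_div_iff_mul_le hm).1 he.2
    rwa [mul_comm]
  refine le_trans ?_ h1
  have h2 : ∑ e ∈ Icc 1 (n / m0), 1 / ((m0 * e : ℕ) : ℝ) =
      1 / (m0 : ℝ) * ∑ e ∈ Icc 1 (n / m0), 1 / (e : ℝ) := by
    rw [mul_sum]
    refine sum_congr rfl fun e _ => ?_
    push_cast
    rw [one_div_mul_one_div]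
  rw [h2]
  refine mul_le_mul_of_nonneg_left ?_ (by positivity)
  refine le_trans ?_ (le_harm (n / m0))
  rw [← Real.log_div hn0.ne' hm0.ne']
  refine Real.log_le_log (by positivity) ?_
  rw [div_le_iff₀ hm0]
  have h3 : n < (n / m0 + 1) * m0 := by
    have := Nat.lt_div_mul_add (a := n) hm
    linarith
  exact_mod_cast h3.le

theorem cf (D : Finset X.Pr) (p : X.Pr → Prop) [DecidablePred p] :
    (D.filter p).card = Nat.card {P : X.Pr // P ∈ D ∧ p P} :=
  (Nat.subtype_card _ fun P => by rw [mem_filter]).symm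

/-- Too many primes. -/
def EFew (l n : ℕ) (D : Finset X.Pr) : Prop := ¬ (D.card : ℝ) ≤ 2 * l * Real.log n

/-- Too many small primes. -/
def ESmall (δ : ℝ) (n : ℕ) (D : Finset X.Pr) : Prop :=
  ¬ (Nat.card {P : X.Pr // P ∈ D ∧ X.deg P < N0 n} : ℝ) ≤ δ * Real.log n

/-- Too few large primes of degree divisible by `m0`. -/
def EMany (m0 : ℕ) (c0 : ℝ) (n : ℕ) (D : Finset X.Pr) : Prop :=
  ¬ c0 * Real.log n ≤ Nat.card {P : X.Pr // P ∈ D ∧ (N0 n ≤ X.deg P ∧ m0 ∣ X.deg P)}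

/-- Not nice. -/
def EBad (l m0 : ℕ) (c0 δ : ℝ) (n : ℕ) (D : Finset X.Pr) : Prop := ¬ NiceN X l m0 c0 δ n D

open Classical in
theorem few_ev (hX : X.Ok q) {l : ℕ} (hl : 2 ≤ l) (ε : ℝ) (hε : 0 < ε) : ∀ᶠ n : ℕ in atTop,
    ∑ D ∈ (Dn hX n).filter (EFew l n), ((l : ℝ) - 1) ^ D.card ≤
      ε * ((q : ℝ) ^ n * (n : ℝ) ^ (l - 2)) := by
  obtain ⟨C, hC0, hC⟩ := hX.consts
  have hl2 := Real.log_two_gt_d9
  have hw := one_le_w hl
  have hK0 := KU_pos hl hC0
  have hlR : (2 : ℝ) ≤ l := by exact_mod_cast hl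
  have ha : 0 < 2 * l * Real.log 2 - ((l : ℝ) - 1) := by nlinarith
  have h1 := tend (((l : ℝ) - 1) * (1 + 4 * C)) 0 ha
  have h2 := h1.eventually_le_const (show 0 < ε / KU l C by positivity)
  filter_upwards [h2, eventually_ge_atTop 1] with n hn hn1
  have hq := pow_pos hX.qpos n
  have hn0 : (0 : ℝ) < n := by exact_mod_cast hn1
  have h3 := rankin' hX hl hC0 hC (fun _ => True) two_pos le_rfl n hn1 (2 * l * Real.log n)
    (EFew l n) (fun D _ hD => by
      simp only [filter_true]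
      rw [← Real.rpow_natCast]
      refine Real.rpow_le_rpow_of_exponent_le one_le_two ?_
      exact (not_le.1 hD).le)
  simp only [filter_true] at h3
  refine h3.trans ?_
  have h4 := mul_le_mul_of_nonneg_left (mertens_all hX hC0 hC n)
    (show (0 : ℝ) ≤ (l : ℝ) - 1 by linarith)
  calc KU l C * (q : ℝ) ^ n * (n : ℝ) ^ (l - 2) * Real.exp (((l : ℝ) - 1) * (2 - 1) *
        (∑ P ∈ Ple hX n, 1 / (q : ℝ) ^ X.deg P) - 2 * l * Real.log n * Real.log 2)
      ≤ KU l C * (q : ℝ) ^ n * (n : ℝ) ^ (l - 2) * (ε / KU l C) := by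
        refine mul_le_mul_of_nonneg_left (le_trans (Real.exp_le_exp.2 ?_) hn) (by positivity)
        linarith
    _ = ε * ((q : ℝ) ^ n * (n : ℝ) ^ (l - 2)) := by
        field_simp

open Classical in
theorem small_ev (hX : X.Ok q) {l : ℕ} (hl : 2 ≤ l) (δ : ℝ) (hδ : 0 < δ) (ε : ℝ) (hε : 0 < ε) :
    ∀ᶠ n : ℕ in atTop,
    ∑ D ∈ (Dn hX n).filter (ESmall δ n), ((l : ℝ) - 1) ^ D.card ≤
      ε * ((q : ℝ) ^ n * (n : ℝ) ^ (l - 2)) := by
  obtain ⟨C, hC0, hC⟩ := hX.consts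
  have hl2 := Real.log_two_gt_d9
  have hw := one_le_w hl
  have hw0 : (0 : ℝ) ≤ (l : ℝ) - 1 := by linarith
  have hK0 := KU_pos hl hC0
  have h1 := tend (((l : ℝ) - 1) * (1 + 4 * C)) (((l : ℝ) - 1) * 3)
    (show 0 < δ * Real.log 2 by positivity)
  have h2 := h1.eventually_le_const (show 0 < ε / KU l C by positivity)
  filter_upwards [h2, eventually_ge_atTop 1, one_le_log] with n hn hn1 hlog
  have hq := pow_pos hX.qpos n
  have hn0 : (0 : ℝ) < n := by exact_mod_cast hn1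
  have h3 := rankin' hX hl hC0 hC (PSm (N0 n)) two_pos le_rfl n hn1 (δ * Real.log n)
    (ESmall δ n)
    (fun D _ hD => by
      rw [← Real.rpow_natCast, cf]
      refine Real.rpow_le_rpow_of_exponent_le one_le_two ?_
      exact (not_le.1 hD).le)
  refine h3.trans ?_
  have h4 := (abs_le.1 (mertens hX hC0 hC n (PSm (N0 n)))).2
  have h5 := harm_small n (N0 n)
  have h6 := log_N0_le hlog
  have h7 : ∑ P ∈ Ple hX n with PSm (N0 n) (X.deg P), 1 / (q : ℝ) ^ X.deg P ≤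
      1 + 4 * C + 3 * Real.log (Real.log n) := by linarith
  have h8 := mul_le_mul_of_nonneg_left h7 hw0
  calc KU l C * (q : ℝ) ^ n * (n : ℝ) ^ (l - 2) * Real.exp (((l : ℝ) - 1) * (2 - 1) *
        (∑ P ∈ Ple hX n with PSm (N0 n) (X.deg P),
        1 / (q : ℝ) ^ X.deg P) - δ * Real.log n * Real.log 2)
      ≤ KU l C * (q : ℝ) ^ n * (n : ℝ) ^ (l - 2) * (ε / KU l C) := by
        refine mul_le_mul_of_nonneg_left (le_trans (Real.exp_le_exp.2 ?_) hn) (by positivity)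
        linarith
    _ = ε * ((q : ℝ) ^ n * (n : ℝ) ^ (l - 2)) := by
        field_simp

open Classical in
theorem many_ev (hX : X.Ok q) {l : ℕ} (hl : 2 ≤ l) (m0 : ℕ) (hm : 1 ≤ m0) (c0 : ℝ)
    (hc : c0 ≤ 1 / (4 * m0)) (ε : ℝ) (hε : 0 < ε) : ∀ᶠ n : ℕ in atTop,
    ∑ D ∈ (Dn hX n).filter (EMany m0 c0 n), ((l : ℝ) - 1) ^ D.card ≤
      ε * ((q : ℝ) ^ n * (n : ℝ) ^ (l - 2)) := by
  obtain ⟨C, hC0, hC⟩ := hX.consts
  have hm0 : (0 : ℝ) < m0 := by exact_mod_cast hm
  have hl2 := Real.log_two_gt_d9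
  have hl2' := Real.log_two_lt_d9
  have hw := one_le_w hl
  have hK0 := KU_pos hl hC0
  set w : ℝ := (l : ℝ) - 1 with hwdef
  have hw0 : (0 : ℝ) < w := by linarith
  have h1 := tend (w * (1 / (2 * m0) * Real.log m0 + 1 / 2 + 2 * C)) (w * (3 / 2))
    (show (0 : ℝ) < w * (1 / (4 * m0)) by positivity)
  have h2 := h1.eventually_le_const (show 0 < ε / KU l C by positivity)
  filter_upwards [h2, eventually_ge_atTop 1, one_le_log] with n hn hn1 hlog
  have hq := pow_pos hX.qpos n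
  have hn0 : (0 : ℝ) < n := by exact_mod_cast hn1
  have h3 := rankin' hX hl hC0 hC (PMa (N0 n) m0) (show (0 : ℝ) < 1 / 2 by norm_num)
    (by norm_num) n hn1 (c0 * Real.log n)
    (EMany m0 c0 n)
    (fun D _ hD => by
      rw [← Real.rpow_natCast, cf]
      refine Real.rpow_le_rpow_of_exponent_ge (by norm_num) (by norm_num) ?_
      exact (not_le.1 hD).le)
  refine h3.trans ?_
  have h4 := (abs_le.1 (mertens hX hC0 hC n (PMa (N0 n) m0))).1
  have h5 := harm_small n (N0 n)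
  have h6 := log_N0_le hlog
  have h7 := harm_mul n m0 hm hn1
  have h8 : ∑ d ∈ Icc 1 n with PMu m0 d, 1 / (d : ℝ) ≤
      ∑ d ∈ Icc 1 n with PMa (N0 n) m0 d, 1 / (d : ℝ) +
        ∑ d ∈ Icc 1 n with PSm (N0 n) d, 1 / (d : ℝ) := by
    have h9 : (Icc 1 n).filter (PMu m0) ⊆ (Icc 1 n).filter (PMa (N0 n) m0) ∪
        (Icc 1 n).filter (PSm (N0 n)) := by
      intro d hd
      rw [mem_filter] at hd
      rw [mem_union, mem_filter, mem_filter]
      rcases lt_or_ge d (N0 n) with h | h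
      · exact Or.inr ⟨hd.1, h⟩
      · exact Or.inl ⟨hd.1, h, hd.2⟩
    have h10 : Disjoint ((Icc 1 n).filter (PMa (N0 n) m0))
        ((Icc 1 n).filter (PSm (N0 n))) := by
      rw [disjoint_left]
      intro d hd hd'
      rw [mem_filter] at hd hd'
      have h1 : N0 n ≤ d := hd.2.1
      have h2 : d < N0 n := hd'.2
      omega
    rw [← sum_union h10]
    exact sum_le_sum_of_subset_of_nonneg h9 fun d _ _ => by positivity
  set A := ∑ P ∈ Ple hX n with PMa (N0 n) m0 (X.deg P), 1 / (q : ℝ) ^ X.deg P with hA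
  have hAl : 1 / (m0 : ℝ) * (Real.log n - Real.log m0) - 1 - 3 * Real.log (Real.log n) - 4 * C ≤
      A := by linarith
  have h11 : c0 * Real.log n * Real.log 2 ≤ w * (1 / (4 * m0)) * Real.log n := by
    have h12 : c0 * Real.log n ≤ 1 / (4 * m0) * Real.log n :=
      mul_le_mul_of_nonneg_right hc (by linarith)
    have h13 : (0 : ℝ) ≤ 1 / (4 * m0) * Real.log n := by positivity
    nlinarith
  have h14 : Real.log (1 / 2 : ℝ) = - Real.log 2 := by rw [one_div, Real.log_inv]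
  have h15 : (1 : ℝ) / m0 = 2 * (1 / (2 * m0)) := by field_simp
  have h16 : (1 : ℝ) / (2 * m0) = 2 * (1 / (4 * m0)) := by
    field_simp
    norm_num
  rw [h15, h16] at hAl
  have h17 := mul_le_mul_of_nonneg_left hAl hw0.le
  calc KU l C * (q : ℝ) ^ n * (n : ℝ) ^ (l - 2) *
        Real.exp (w * (1 / 2 - 1) * A - c0 * Real.log n * Real.log (1 / 2))
      ≤ KU l C * (q : ℝ) ^ n * (n : ℝ) ^ (l - 2) * (ε / KU l C) := by
        refine mul_le_mul_of_nonneg_left (le_trans (Real.exp_le_exp.2 ?_) hn) (by positivity)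
        rw [h14, h16]
        linarith
    _ = ε * ((q : ℝ) ^ n * (n : ℝ) ^ (l - 2)) := by
        field_simp

open Classical in
theorem dist_ev (hX : X.Ok q) {l : ℕ} (hl : 2 ≤ l) (ε : ℝ) (hε : 0 < ε) : ∀ᶠ n : ℕ in atTop,
    ∑ D ∈ (Dn hX n).filter (EDistN (N0 n)), ((l : ℝ) - 1) ^ D.card ≤
      ε * ((q : ℝ) ^ n * (n : ℝ) ^ (l - 2)) := by
  obtain ⟨C, hC0, hC⟩ := hX.consts
  have hw := one_le_w hl
  have hw0 : (0 : ℝ) < (l : ℝ) - 1 := by linarith
  have hKU := KU_pos hl hC0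
  set K := KU l C * (1 + C) ^ 2 * ((l : ℝ) - 1) ^ 2 * 2 with hK
  have hK0 : 0 < K := by positivity
  have h1 := N0_tendsto.eventually_ge_atTop (⌈K / ε⌉₊ + 1)
  filter_upwards [h1, eventually_ge_atTop 1] with n hn hn1
  have hN1 : 1 ≤ N0 n := by omega
  have hN0 : (0 : ℝ) < N0 n := by exact_mod_cast hN1
  have hn0 : (0 : ℝ) < n := by exact_mod_cast hn1
  have hq := pow_pos hX.qpos n
  have h2 : K / ε ≤ N0 n := by
    refine (Nat.le_ceil _).trans ?_
    exact_mod_cast (Nat.le_succ _).trans hn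
  refine (dist_le hX hl hC0 hC n (N0 n) hn1 hN1).trans ?_
  have h3 : KU l C * (1 + C) ^ 2 * ((l : ℝ) - 1) ^ 2 * (2 / (N0 n : ℝ)) ≤ ε := by
    rw [← mul_div_assoc, div_le_iff₀ hN0, ← hK]
    rw [div_le_iff₀ hε] at h2
    linarith
  exact mul_le_mul_of_nonneg_right h3 (by positivity)

/-- The sum over a union. -/
theorem sum_union_le' {α : Type*} [DecidableEq α] (s t : Finset α) (f : α → ℝ)
    (hf : ∀ a, 0 ≤ f a) : ∑ a ∈ s ∪ t, f a ≤ ∑ a ∈ s, f a + ∑ a ∈ t, f a := by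
  rw [← sum_union_inter]
  have := sum_nonneg fun a (_ : a ∈ s ∩ t) => hf a
  linarith

/-- **Block K**: almost all twists of degree `n` are nice. -/
theorem kthm (hX : X.Ok q) {l : ℕ} (hl : 2 ≤ l) (m0 : ℕ) (hm : 1 ≤ m0) (c0 : ℝ)
    (hc : c0 ≤ 1 / (4 * m0)) : KThm X l m0 c0 := by
  classical
  intro ε δ hε hδ
  obtain ⟨c, hc0, n₁, hdd⟩ := dd_of hX hl
  have hη : 0 < ε * c / 4 := by positivity
  have h1 := few_ev hX hl (ε * c / 4) hη
  have h2 := small_ev hX hl δ hδ (ε * c / 4) hη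
  have h3 := many_ev hX hl m0 hm c0 hc (ε * c / 4) hη
  have h4 := dist_ev hX hl (ε * c / 4) hη
  have hall := (h1.and (h2.and (h3.and h4))).and (eventually_ge_atTop n₁)
  obtain ⟨n₀, hn₀⟩ := eventually_atTop.1 hall
  refine ⟨n₀, fun n hn => ?_⟩
  obtain ⟨⟨g1, g2, g3, g4⟩, g5⟩ := hn₀ n hn
  have hw0 : (0 : ℝ) ≤ (l : ℝ) - 1 := by
    have := one_le_w hl
    linarith
  have hcard : (Nat.card {c : X.TD l n // ¬ NiceN X l m0 c0 δ n c.1.support} : ℝ) =
      ∑ D ∈ (Dn hX n).filter (EBad l m0 c0 δ n), ((l : ℝ) - 1) ^ D.card :=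
    card_TD' hX (by omega) n (EBad l m0 c0 δ n)
  rw [hcard]
  have hsub : (Dn hX n).filter (EBad l m0 c0 δ n) ⊆
      (Dn hX n).filter (EFew l n) ∪ ((Dn hX n).filter (ESmall δ n) ∪
        ((Dn hX n).filter (EMany m0 c0 n) ∪ (Dn hX n).filter (EDistN (N0 n)))) := by
    intro D hD
    rw [mem_filter] at hD
    by_contra hcon
    rw [mem_union, mem_union, mem_union, not_or, not_or, not_or, mem_filter, mem_filter,
      mem_filter, mem_filter] at hcon
    obtain ⟨k1, k2, k3, k4⟩ := hcon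
    refine hD.2 ⟨?_, ?_, ?_, ?_⟩
    · by_contra h
      exact k1 ⟨hD.1, h⟩
    · intro P hP Q hQ hN hPQ
      by_contra h
      exact k4 ⟨hD.1, P, hP, Q, hQ, hN, hPQ, h⟩
    · by_contra h
      exact k3 ⟨hD.1, h⟩
    · by_contra h
      exact k2 ⟨hD.1, h⟩
  have hf : ∀ D : Finset X.Pr, 0 ≤ ((l : ℝ) - 1) ^ D.card := fun D => pow_nonneg hw0 _
  have h6 := (sum_le_sum_of_subset_of_nonneg hsub fun D _ _ => hf D).trans
    ((sum_union_le' _ _ _ hf).trans (add_le_add_right ((sum_union_le' _ _ _ hf).trans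
      (add_le_add_right (sum_union_le' _ _ _ hf) _)) _))
  refine h6.trans ?_
  have h7 := hdd n g5
  have h8 := mul_le_mul_of_nonneg_left h7 hε.le
  linarith

end Pool.Agent.SmL.PSys
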