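import Pool.Agent.Lib.SmL.Cnt.Stmts

/-!
SMITH-L (SmL), counting half, block K: squarefree divisors over a prime system, weighted sums.

`Ple hX n` : the primes of degree at most `n`; `Dn hX n` : the squarefree divisors of degree `n`;
`Sz hX z n = ∑_(D ∈ Dn n) ∏_(P ∈ D) z P`.
`card_TD` : the number of the twists of degree `n` with support in `E` is the sum over `D ∈ E` of
`(l - 1) ^ |D|`; `nTD_eq` : `nTD l n = Sz hX (fun _ => l - 1) n`.
`n_Sz` : `n S_n ≤ Z C q ^ n ∑_(j < n) S_j q ^ (-j)` if `0 ≤ z ≤ Z`;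
`Sz_le` : `n S_n ≤ Z C q ^ n exp (∑_(deg P ≤ n) z P q ^ (- deg P))`.
-/

set_option autoImplicit false

open Finset

namespace Pool.Agent.SmL.PSys

variable {X : PSys} {q : ℕ}

theorem Ok.finite_le (hX : X.Ok q) (n : ℕ) : {P : X.Pr | X.deg P ≤ n}.Finite := by
  have h1 : {P : X.Pr | X.deg P ≤ n} = ⋃ d ∈ Set.Iic n, {P : X.Pr | X.deg P = d} := by
    ext P
    simp
  rw [h1]
  exact (Set.finite_Iic n).biUnion fun d _ => Set.finite_coe_iff.1 (hX.fin d)

/-- The primes of degree at most `n`. -/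
noncomputable def Ple (hX : X.Ok q) (n : ℕ) : Finset X.Pr := (hX.finite_le n).toFinset

theorem mem_Ple {hX : X.Ok q} {n : ℕ} {P : X.Pr} : P ∈ Ple hX n ↔ X.deg P ≤ n := by
  rw [Ple, Set.Finite.mem_toFinset]
  rfl

theorem deg_le_degS {D : Finset X.Pr} {P : X.Pr} (hP : P ∈ D) : X.deg P ≤ X.degS D :=
  single_le_sum (f := X.deg) (fun _ _ => Nat.zero_le _) hP

theorem subset_Ple (hX : X.Ok q) {n : ℕ} {D : Finset X.Pr} (hD : X.degS D ≤ n) :
    D ⊆ Ple hX n := fun _ hP => mem_Ple.2 ((deg_le_degS hP).trans hD)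

open Classical in
/-- The squarefree divisors of degree `n`. -/
noncomputable def Dn (hX : X.Ok q) (n : ℕ) : Finset (Finset X.Pr) :=
  (Ple hX n).powerset.filter fun D => X.degS D = n

theorem mem_Dn {hX : X.Ok q} {n : ℕ} {D : Finset X.Pr} : D ∈ Dn hX n ↔ X.degS D = n := by
  classical
  rw [Dn, mem_filter, mem_powerset]
  exact ⟨fun h => h.2, fun h => ⟨subset_Ple hX h.le, h⟩⟩

/-- The number of the nonzero elements of `ZMod l`. -/
theorem card_ne_zero {l : ℕ} (hl : 1 ≤ l) : Nat.card {a : ZMod l // a ≠ 0} = l - 1 := by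
  have : NeZero l := ⟨by omega⟩
  classical
  rw [Nat.card_eq_fintype_card, Fintype.card_subtype_compl, ZMod.card, Fintype.card_subtype_eq]

/-- The exponent functions with support `D`. -/
noncomputable def suppEquiv (l : ℕ) (D : Finset X.Pr) :
    {c : X.Pr →₀ ZMod l // c.support = D} ≃ (D → {a : ZMod l // a ≠ 0}) where
  toFun c P := ⟨c.1 P.1, by
    have h : P.1 ∈ c.1.support := by
      rw [c.2]
      exact P.2
    exact Finsupp.mem_support_iff.1 h⟩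
  invFun f := ⟨Finsupp.onFinset D (fun P => by
      classical
      exact if h : P ∈ D then (f ⟨P, h⟩).1 else 0) (fun P hP => by
        by_contra h
        simp only [dif_neg h, ne_eq, not_true_eq_false] at hP), by
      ext P
      rw [Finsupp.mem_support_iff, Finsupp.onFinset_apply]
      constructor
      · intro hP
        by_contra h
        simp only [dif_neg h, ne_eq, not_true_eq_false] at hP
      · intro h
        simp only [dif_pos h]
        exact (f ⟨P, h⟩).2⟩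
  left_inv c := by
    apply Subtype.ext
    ext P
    rw [Finsupp.onFinset_apply]
    by_cases h : P ∈ D
    · simp only [dif_pos h]
    · simp only [dif_neg h]
      have h1 : P ∉ c.1.support := by
        rw [c.2]
        exact h
      exact (Finsupp.notMem_support_iff.1 h1).symm
  right_inv f := by
    funext P
    apply Subtype.ext
    simp only [Finsupp.onFinset_apply, dif_pos P.2]

theorem card_supp {l : ℕ} (hl : 1 ≤ l) (D : Finset X.Pr) :
    Nat.card {c : X.Pr →₀ ZMod l // c.support = D} = (l - 1) ^ D.card := by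
  rw [Nat.card_congr (suppEquiv l D), Nat.card_fun, card_ne_zero hl, Nat.card_eq_fintype_card,
    Fintype.card_coe]

theorem finite_supp {l : ℕ} (hl : 1 ≤ l) (D : Finset X.Pr) :
    Finite {c : X.Pr →₀ ZMod l // c.support = D} := by
  have : NeZero l := ⟨by omega⟩
  exact Finite.of_equiv _ (suppEquiv l D).symm

/-- The twists of degree `n` with support in `E`, by the support. -/
noncomputable def fibEquiv (l n : ℕ) (E : Finset X.Pr → Prop)
    (F : Finset (Finset X.Pr)) (hF : ∀ D, D ∈ F ↔ X.degS D = n ∧ E D) :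
    {c : X.TD l n // E c.1.support} ≃ Σ D : F, {c : X.Pr →₀ ZMod l // c.support = D.1} where
  toFun c := ⟨⟨c.1.1.support, (hF _).2 ⟨c.1.2, c.2⟩⟩, c.1.1, rfl⟩
  invFun y := ⟨⟨y.2.1, by
    rw [y.2.2]
    exact ((hF _).1 y.1.2).1⟩, by
    show E y.2.1.support
    rw [y.2.2]
    exact ((hF _).1 y.1.2).2⟩
  left_inv _ := rfl
  right_inv := by
    rintro ⟨⟨D, hD⟩, c, hc⟩
    change c.support = D at hc
    subst hc
    rfl

open Classical in
/-- **The number of the twists of degree `n` with support in `E`.** -/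
theorem card_TD (hX : X.Ok q) {l : ℕ} (hl : 1 ≤ l) (n : ℕ) (E : Finset X.Pr → Prop) :
    Nat.card {c : X.TD l n // E c.1.support} = ∑ D ∈ (Dn hX n).filter E, (l - 1) ^ D.card := by
  have h1 : ∀ D, D ∈ (Dn hX n).filter E ↔ X.degS D = n ∧ E D := fun D => by
    rw [mem_filter, mem_Dn]
  have : ∀ D : {D // D ∈ (Dn hX n).filter E}, Finite {c : X.Pr →₀ ZMod l // c.support = D.1} :=
    fun D => finite_supp hl D.1
  rw [Nat.card_congr (fibEquiv l n E _ h1), Nat.card_sigma,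
    ← sum_coe_sort ((Dn hX n).filter E) fun D => (l - 1) ^ D.card]
  exact sum_congr rfl fun D _ => card_supp hl (D : Finset X.Pr)

open Classical in
theorem card_TD' (hX : X.Ok q) {l : ℕ} (hl : 1 ≤ l) (n : ℕ) (E : Finset X.Pr → Prop) :
    (Nat.card {c : X.TD l n // E c.1.support} : ℝ) =
      ∑ D ∈ (Dn hX n).filter E, ((l : ℝ) - 1) ^ D.card := by
  rw [card_TD hX hl n E]
  push_cast [Nat.cast_sub hl]
  rfl

theorem nTD_eq_sum (hX : X.Ok q) {l : ℕ} (hl : 1 ≤ l) (n : ℕ) :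
    (X.nTD l n : ℝ) = ∑ D ∈ Dn hX n, ((l : ℝ) - 1) ^ D.card := by
  classical
  have h1 := card_TD' hX hl n fun _ => True
  rw [filter_true] at h1
  rw [← h1, nTD]
  exact_mod_cast Nat.card_congr (Equiv.subtypeUnivEquiv fun _ => trivial).symm

/-- There are finitely many twists of degree `n`. -/
theorem Ok.finite_TD (hX : X.Ok q) {l : ℕ} (hl : 1 ≤ l) (n : ℕ) : Finite (X.TD l n) := by
  classical
  have : ∀ D : {D // D ∈ Dn hX n}, Finite {c : X.Pr →₀ ZMod l // c.support = D.1} :=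
    fun D => finite_supp hl D.1
  have h1 := fibEquiv l n (fun _ => True) (Dn hX n) fun D => by
    rw [mem_Dn, and_true]
  have h2 : Finite {c : X.TD l n // True} := Finite.of_equiv _ h1.symm
  exact Finite.of_injective (β := {c : X.TD l n // True}) (fun c => ⟨c, trivial⟩) fun c c' h =>
    congrArg Subtype.val h

/-- The number of the primes of degree `d`. -/
noncomputable def npr (X : PSys) (d : ℕ) : ℕ := Nat.card (X.Of d)

open Classical in
theorem card_deg (hX : X.Ok q) {n d : ℕ} (hd : d ≤ n) :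
    ((Ple hX n).filter fun P => X.deg P = d).card = npr X d := by
  refine (Nat.subtype_card _ fun P => ?_).symm
  rw [mem_filter, mem_Ple]
  exact ⟨fun h => h.2, fun h => ⟨h.le.trans hd, h⟩⟩

/-- The constants. -/
theorem Ok.consts (hX : X.Ok q) : ∃ C : ℝ, 0 ≤ C ∧
    (∀ d : ℕ, 1 ≤ d → |(d : ℝ) * npr X d - (q : ℝ) ^ d| ≤ C * √((q : ℝ) ^ d)) := by
  obtain ⟨C, hC⟩ := hX.pnt
  refine ⟨C, ?_, hC⟩
  have h1 := hC 1 le_rfl
  have hq : (0 : ℝ) < q := by exact_mod_cast lt_of_lt_of_le two_pos hX.two_le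
  have h2 : 0 < √((q : ℝ) ^ 1) := Real.sqrt_pos.2 (by positivity)
  by_contra hneg
  push Not at hneg
  have h3 : C * √((q : ℝ) ^ 1) < 0 := mul_neg_of_neg_of_pos hneg h2
  have h4 := abs_nonneg ((1 : ℕ) * (npr X 1 : ℝ) - (q : ℝ) ^ 1)
  have h5 := h4.trans h1
  linarith

theorem Ok.one_le (hX : X.Ok q) : (1 : ℝ) ≤ q := by
  exact_mod_cast le_trans one_le_two hX.two_le

theorem Ok.qpos (hX : X.Ok q) : (0 : ℝ) < q := lt_of_lt_of_le one_pos hX.one_le

theorem sqrt_le_self_pow (hX : X.Ok q) (d : ℕ) : √((q : ℝ) ^ d) ≤ (q : ℝ) ^ d := by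
  have h1 : (1 : ℝ) ≤ (q : ℝ) ^ d := one_le_pow₀ hX.one_le
  rw [Real.sqrt_le_left (by positivity)]
  nlinarith

/-- The upper bound for the number of the primes. -/
theorem npr_le (hX : X.Ok q) {C : ℝ} (hC0 : 0 ≤ C)
    (hC : ∀ d : ℕ, 1 ≤ d → |(d : ℝ) * npr X d - (q : ℝ) ^ d| ≤ C * √((q : ℝ) ^ d)) (d : ℕ)
    (hd : 1 ≤ d) : (d : ℝ) * npr X d ≤ (1 + C) * (q : ℝ) ^ d := by
  have h1 := (abs_le.1 (hC d hd)).2
  have h2 := mul_le_mul_of_nonneg_left (sqrt_le_self_pow hX d) hC0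
  linarith

/-- The weighted sums. -/
noncomputable def Sz (hX : X.Ok q) (z : X.Pr → ℝ) (n : ℕ) : ℝ := ∑ D ∈ Dn hX n, ∏ P ∈ D, z P

theorem Sz_nonneg (hX : X.Ok q) {z : X.Pr → ℝ} (hz : ∀ P, 0 ≤ z P) (n : ℕ) : 0 ≤ Sz hX z n :=
  sum_nonneg fun _ _ => prod_nonneg fun P _ => hz P

theorem nTD_eq (hX : X.Ok q) {l : ℕ} (hl : 1 ≤ l) (n : ℕ) :
    (X.nTD l n : ℝ) = Sz hX (fun _ => (l : ℝ) - 1) n := by
  rw [Sz, nTD_eq_sum hX hl]
  exact sum_congr rfl fun D _ => (prod_const _).symm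

/-- The only divisor of degree `0`. -/
theorem Dn_zero (hX : X.Ok q) : Dn hX 0 = {∅} := by
  ext D
  rw [mem_Dn, mem_singleton]
  constructor
  · intro h
    rw [eq_empty_iff_forall_notMem]
    intro P hP
    have h2 := deg_le_degS hP
    have h3 := hX.pos P
    omega
  · rintro rfl
    rfl

theorem Sz_zero (hX : X.Ok q) (z : X.Pr → ℝ) : Sz hX z 0 = 1 := by
  rw [Sz, Dn_zero hX, sum_singleton, prod_empty]

/-- First step: mark one prime. -/
theorem n_Sz_le (hX : X.Ok q) {z : X.Pr → ℝ} (hz : ∀ P, 0 ≤ z P) (n : ℕ) :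
    (n : ℝ) * Sz hX z n ≤
      ∑ P ∈ Ple hX n, (X.deg P : ℝ) * z P * Sz hX z (n - X.deg P) := by
  classical
  have h1 : (n : ℝ) * Sz hX z n = ∑ x ∈ (Dn hX n).sigma (fun D => D),
      (X.deg x.2 : ℝ) * z x.2 * ∏ Q ∈ x.1.erase x.2, z Q := by
    rw [Sz, mul_sum, sum_sigma]
    refine sum_congr rfl fun D hD => ?_
    have h2 : (n : ℝ) = ∑ P ∈ D, (X.deg P : ℝ) := by
      rw [← mem_Dn.1 hD, degS]
      push_cast
      rfl
    rw [h2, sum_mul]
    refine sum_congr rfl fun P hP => ?_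
    rw [← mul_prod_erase D z hP]
    ring
  have h3 : ∑ P ∈ Ple hX n, (X.deg P : ℝ) * z P * Sz hX z (n - X.deg P) =
      ∑ y ∈ (Ple hX n).sigma (fun P => Dn hX (n - X.deg P)),
        (X.deg y.1 : ℝ) * z y.1 * ∏ Q ∈ y.2, z Q := by
    rw [sum_sigma]
    refine sum_congr rfl fun P _ => ?_
    rw [Sz, mul_sum]
  rw [h1, h3]
  set i : (Σ _ : Finset X.Pr, X.Pr) → (Σ _ : X.Pr, Finset X.Pr) :=
    fun x => ⟨x.2, x.1.erase x.2⟩ with hi
  have hinj : Set.InjOn i ((Dn hX n).sigma (fun D => D) : Finset (Σ _ : Finset X.Pr, X.Pr)) := by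
    rintro ⟨D, P⟩ hx ⟨D', P'⟩ hx' heq
    rw [mem_coe, mem_sigma] at hx hx'
    simp only [hi, Sigma.mk.injEq, heq_eq_eq] at heq
    obtain ⟨rfl, he⟩ := heq
    have hP : P ∈ D := hx.2
    have hP' : P ∈ D' := hx'.2
    have hDD : D = D' := by
      rw [← insert_erase hP, ← insert_erase hP', he]
    subst hDD
    rfl
  have h4 : ∑ x ∈ (Dn hX n).sigma (fun D => D),
      (X.deg x.2 : ℝ) * z x.2 * ∏ Q ∈ x.1.erase x.2, z Q =
      ∑ y ∈ ((Dn hX n).sigma (fun D => D)).image i,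
        (X.deg y.1 : ℝ) * z y.1 * ∏ Q ∈ y.2, z Q := by
    rw [sum_image hinj]
  rw [h4]
  refine sum_le_sum_of_subset_of_nonneg ?_ fun y _ _ => ?_
  · intro y hy
    rw [mem_image] at hy
    obtain ⟨⟨D, P⟩, hx, rfl⟩ := hy
    rw [mem_sigma] at hx ⊢
    have hd : X.degS D = n := mem_Dn.1 hx.1
    have hP : P ∈ D := hx.2
    refine ⟨mem_Ple.2 (hd ▸ deg_le_degS hP), mem_Dn.2 ?_⟩
    change X.degS (D.erase P) = n - X.deg P
    have h5 : X.deg P + X.degS (D.erase P) = X.degS D := add_sum_erase D X.deg hP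
    omega
  · exact mul_nonneg (mul_nonneg (Nat.cast_nonneg _) (hz _)) (prod_nonneg fun P _ => hz P)

/-- Second step: the number of the primes. -/
theorem n_Sz (hX : X.Ok q) {C : ℝ} (hC0 : 0 ≤ C)
    (hC : ∀ d : ℕ, 1 ≤ d → |(d : ℝ) * npr X d - (q : ℝ) ^ d| ≤ C * √((q : ℝ) ^ d))
    {z : X.Pr → ℝ} (hz : ∀ P, 0 ≤ z P) {Z : ℝ} (hZ : 0 ≤ Z) (hz2 : ∀ P, z P ≤ Z) (n : ℕ) :
    (n : ℝ) * Sz hX z n ≤
      Z * (1 + C) * (q : ℝ) ^ n * ∑ j ∈ range n, Sz hX z j / (q : ℝ) ^ j := by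
  classical
  refine (n_Sz_le hX hz n).trans ?_
  have h1 : ∀ P ∈ Ple hX n, X.deg P ∈ Icc 1 n := fun P hP =>
    mem_Icc.2 ⟨hX.pos P, mem_Ple.1 hP⟩
  rw [← sum_fiberwise_of_maps_to h1]
  have h2 : ∀ d ∈ Icc 1 n, ∑ P ∈ Ple hX n with X.deg P = d,
      (X.deg P : ℝ) * z P * Sz hX z (n - X.deg P) ≤
        Z * (1 + C) * (q : ℝ) ^ d * Sz hX z (n - d) := by
    intro d hd
    have hd' := mem_Icc.1 hd
    calc ∑ P ∈ Ple hX n with X.deg P = d, (X.deg P : ℝ) * z P * Sz hX z (n - X.deg P)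
        ≤ ∑ P ∈ Ple hX n with X.deg P = d, (d : ℝ) * Z * Sz hX z (n - d) := by
          refine sum_le_sum fun P hP => ?_
          rw [(mem_filter.1 hP).2]
          exact mul_le_mul_of_nonneg_right
            (mul_le_mul_of_nonneg_left (hz2 P) (Nat.cast_nonneg _)) (Sz_nonneg hX hz _)
      _ = Z * ((d : ℝ) * npr X d) * Sz hX z (n - d) := by
          rw [sum_const, card_deg hX hd'.2, nsmul_eq_mul]
          ring
      _ ≤ Z * ((1 + C) * (q : ℝ) ^ d) * Sz hX z (n - d) := by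
          refine mul_le_mul_of_nonneg_right ?_ (Sz_nonneg hX hz _)
          exact mul_le_mul_of_nonneg_left (npr_le hX hC0 hC d hd'.1) hZ
      _ = _ := by ring
  refine (sum_le_sum h2).trans ?_
  have h3 : ∑ d ∈ Icc 1 n, Z * (1 + C) * (q : ℝ) ^ d * Sz hX z (n - d) =
      ∑ i ∈ range n, Z * (1 + C) * (q : ℝ) ^ (i + 1) * Sz hX z (n - 1 - i) := by
    rw [range_eq_Ico, sum_Ico_eq_sum_range, ← Finset.Ico_add_one_right_eq_Icc,
      sum_Ico_eq_sum_range]
    simp only [Nat.sub_zero, Nat.add_sub_cancel, zero_add]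
    refine sum_congr rfl fun i hi => ?_
    rw [add_comm 1 i, show n - (i + 1) = n - 1 - i by omega]
  rw [h3, ← sum_range_reflect, mul_sum]
  refine (sum_congr rfl fun j hj => ?_).le
  have hj' := mem_range.1 hj
  rw [show n - 1 - (n - 1 - j) = j by omega, show n - 1 - j + 1 = n - j by omega]
  have hq0 : (q : ℝ) ^ j ≠ 0 := (pow_pos hX.qpos j).ne'
  have h4 : (q : ℝ) ^ n = (q : ℝ) ^ (n - j) * (q : ℝ) ^ j := by
    rw [← pow_add]
    congr 1
    omega
  rw [h4]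
  field_simp

/-- Third step: the Euler product. -/
theorem sum_Sz_le (hX : X.Ok q) {z : X.Pr → ℝ} (hz : ∀ P, 0 ≤ z P) (n : ℕ) :
    ∑ j ∈ range n, Sz hX z j / (q : ℝ) ^ j ≤
      Real.exp (∑ P ∈ Ple hX n, z P / (q : ℝ) ^ X.deg P) := by
  classical
  have hf : ∀ P, 0 ≤ z P / (q : ℝ) ^ X.deg P := fun P =>
    div_nonneg (hz P) (pow_nonneg hX.qpos.le _)
  have h1 : ∀ D : Finset X.Pr, ∏ P ∈ D, z P / (q : ℝ) ^ X.deg P =
      (∏ P ∈ D, z P) / (q : ℝ) ^ X.degS D := by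
    intro D
    rw [prod_div_distrib, degS, prod_pow_eq_pow_sum]
  calc ∑ j ∈ range n, Sz hX z j / (q : ℝ) ^ j
      = ∑ j ∈ range n, ∑ D ∈ Dn hX j, ∏ P ∈ D, z P / (q : ℝ) ^ X.deg P := by
        refine sum_congr rfl fun j _ => ?_
        rw [Sz, sum_div]
        refine sum_congr rfl fun D hD => ?_
        rw [h1, mem_Dn.1 hD]
    _ = ∑ D ∈ (range n).biUnion (Dn hX), ∏ P ∈ D, z P / (q : ℝ) ^ X.deg P := by
        rw [sum_biUnion]
        intro i _ j _ hij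
        rw [Function.onFun, disjoint_left]
        intro D hD hD'
        exact hij ((mem_Dn.1 hD).symm.trans (mem_Dn.1 hD'))
    _ ≤ ∑ D ∈ (Ple hX n).powerset, ∏ P ∈ D, z P / (q : ℝ) ^ X.deg P := by
        refine sum_le_sum_of_subset_of_nonneg ?_ fun D _ _ => prod_nonneg fun P _ => hf P
        intro D hD
        rw [mem_biUnion] at hD
        obtain ⟨j, hj, hD⟩ := hD
        exact mem_powerset.2 (subset_Ple hX ((mem_Dn.1 hD).le.trans (mem_range.1 hj).le))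
    _ = ∏ P ∈ Ple hX n, (1 + z P / (q : ℝ) ^ X.deg P) := (prod_one_add _).symm
    _ ≤ ∏ P ∈ Ple hX n, Real.exp (z P / (q : ℝ) ^ X.deg P) := by
        refine prod_le_prod (fun P _ => add_nonneg zero_le_one (hf P)) fun P _ => ?_
        rw [add_comm]
        exact Real.add_one_le_exp _
    _ = _ := (Real.exp_sum _ _).symm

/-- The bound for the weighted sums. -/
theorem Sz_le (hX : X.Ok q) {C : ℝ} (hC0 : 0 ≤ C)
    (hC : ∀ d : ℕ, 1 ≤ d → |(d : ℝ) * npr X d - (q : ℝ) ^ d| ≤ C * √((q : ℝ) ^ d))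
    {z : X.Pr → ℝ} (hz : ∀ P, 0 ≤ z P) {Z : ℝ} (hZ : 0 ≤ Z) (hz2 : ∀ P, z P ≤ Z) (n : ℕ)
    (hn : 1 ≤ n) :
    Sz hX z n ≤ Z * (1 + C) * (q : ℝ) ^ n / n *
      Real.exp (∑ P ∈ Ple hX n, z P / (q : ℝ) ^ X.deg P) := by
  have hn0 : (0 : ℝ) < n := by exact_mod_cast hn
  have h1 := n_Sz hX hC0 hC hz hZ hz2 n
  have h2 := sum_Sz_le hX hz n
  have h3 : 0 ≤ Z * (1 + C) * (q : ℝ) ^ n := by
    have := pow_nonneg hX.qpos.le n
    positivity
  have h4 := h1.trans (mul_le_mul_of_nonneg_left h2 h3)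
  rw [div_mul_eq_mul_div, le_div_iff₀ hn0, mul_comm]
  exact h4

/-! ### Mertens -/

theorem inv_sqrt_le (hX : X.Ok q) (d : ℕ) : √((q : ℝ) ^ d) / (q : ℝ) ^ d ≤ (3 / 4) ^ d := by
  have hq2 : (2 : ℝ) ≤ q := by exact_mod_cast hX.two_le
  have h0 : (0 : ℝ) < (q : ℝ) ^ d := pow_pos hX.qpos d
  have hs : 0 < √((q : ℝ) ^ d) := Real.sqrt_pos.2 h0
  have h1 : √((q : ℝ) ^ d) / (q : ℝ) ^ d = 1 / √((q : ℝ) ^ d) := by
    have := Real.mul_self_sqrt h0.le
    rw [div_eq_div_iff h0.ne' hs.ne', one_mul]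
    exact this
  rw [h1, div_le_iff₀ hs]
  have h2 : ((4 : ℝ) / 3) ^ d ≤ √((q : ℝ) ^ d) := by
    rw [Real.le_sqrt (by positivity) h0.le, ← pow_mul, mul_comm, pow_mul]
    exact pow_le_pow_left₀ (by norm_num) (by linarith [show ((4 : ℝ) / 3) ^ 2 ≤ 2 by norm_num]) d
  have h3 : ((3 : ℝ) / 4) ^ d * (4 / 3) ^ d = 1 := by
    rw [← mul_pow]
    norm_num
  have h4 := mul_le_mul_of_nonneg_left h2 (show (0 : ℝ) ≤ (3 / 4) ^ d by positivity)
  linarith

/-- The reciprocal sum over the primes of one degree. -/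
theorem one_deg (hX : X.Ok q) {C : ℝ}
    (hC : ∀ d : ℕ, 1 ≤ d → |(d : ℝ) * npr X d - (q : ℝ) ^ d| ≤ C * √((q : ℝ) ^ d)) (hC0 : 0 ≤ C)
    (d : ℕ) (hd : 1 ≤ d) : |(npr X d : ℝ) / (q : ℝ) ^ d - 1 / d| ≤ C * (3 / 4) ^ d := by
  have h0 : (0 : ℝ) < (q : ℝ) ^ d := pow_pos hX.qpos d
  have hd0 : (1 : ℝ) ≤ d := by exact_mod_cast hd
  have h1 : (npr X d : ℝ) / (q : ℝ) ^ d - 1 / d =
      ((d : ℝ) * npr X d - (q : ℝ) ^ d) / (d * (q : ℝ) ^ d) := by
    field_simp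
  rw [h1, abs_div, abs_of_pos (by positivity : (0 : ℝ) < d * (q : ℝ) ^ d)]
  calc |(d : ℝ) * npr X d - (q : ℝ) ^ d| / (d * (q : ℝ) ^ d)
      ≤ C * √((q : ℝ) ^ d) / (d * (q : ℝ) ^ d) :=
        div_le_div_of_nonneg_right (hC d hd) (by positivity)
    _ ≤ C * √((q : ℝ) ^ d) / (q : ℝ) ^ d := by
        refine div_le_div_of_nonneg_left (mul_nonneg hC0 (Real.sqrt_nonneg _)) h0 ?_
        exact le_mul_of_one_le_left h0.le hd0
    _ = C * (√((q : ℝ) ^ d) / (q : ℝ) ^ d) := by rw [mul_div_assoc]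
    _ ≤ C * (3 / 4) ^ d := mul_le_mul_of_nonneg_left (inv_sqrt_le hX d) hC0

theorem geom_le (s : Finset ℕ) : ∑ d ∈ s, ((3 : ℝ) / 4) ^ d ≤ 4 := by
  have h1 : Summable fun d : ℕ => ((3 : ℝ) / 4) ^ d :=
    summable_geometric_of_lt_one (by norm_num) (by norm_num)
  have h2 := h1.sum_le_tsum s fun d _ => by positivity
  rw [tsum_geometric_of_lt_one (by norm_num) (by norm_num)] at h2
  exact h2.trans (by norm_num)

open Classical in
/-- **Mertens** for an arbitrary set of degrees. -/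
theorem mertens (hX : X.Ok q) {C : ℝ} (hC0 : 0 ≤ C)
    (hC : ∀ d : ℕ, 1 ≤ d → |(d : ℝ) * npr X d - (q : ℝ) ^ d| ≤ C * √((q : ℝ) ^ d))
    (n : ℕ) (p : ℕ → Prop) :
    |∑ P ∈ Ple hX n with p (X.deg P), 1 / (q : ℝ) ^ X.deg P -
      ∑ d ∈ Icc 1 n with p d, 1 / (d : ℝ)| ≤ 4 * C := by
  have h1 : ∑ P ∈ Ple hX n with p (X.deg P), 1 / (q : ℝ) ^ X.deg P =
      ∑ d ∈ Icc 1 n with p d, (npr X d : ℝ) / (q : ℝ) ^ d := by
    have hm : ∀ P ∈ (Ple hX n).filter fun P => p (X.deg P), X.deg P ∈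
        (Icc 1 n).filter p := by
      intro P hP
      rw [mem_filter, mem_Ple] at hP
      exact mem_filter.2 ⟨mem_Icc.2 ⟨hX.pos P, hP.1⟩, hP.2⟩
    rw [← sum_fiberwise_of_maps_to hm]
    refine sum_congr rfl fun d hd => ?_
    have hd' := mem_filter.1 hd
    have h2 : (((Ple hX n).filter fun P => p (X.deg P)).filter fun P => X.deg P = d) =
        (Ple hX n).filter fun P => X.deg P = d := by
      rw [filter_filter]
      refine filter_congr fun P _ => ?_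
      constructor
      · exact fun h => h.2
      · intro h
        exact ⟨h ▸ hd'.2, h⟩
    rw [h2, ← card_deg hX (mem_Icc.1 hd'.1).2, card_eq_sum_ones, Nat.cast_sum, sum_div]
    refine sum_congr rfl fun P hP => ?_
    rw [(mem_filter.1 hP).2, Nat.cast_one]
  rw [h1, ← sum_sub_distrib]
  refine (abs_sum_le_sum_abs _ _).trans ?_
  calc ∑ d ∈ Icc 1 n with p d, |(npr X d : ℝ) / (q : ℝ) ^ d - 1 / d|
      ≤ ∑ d ∈ Icc 1 n with p d, C * (3 / 4) ^ d :=
        sum_le_sum fun d hd => one_deg hX hC hC0 d (mem_Icc.1 (mem_filter.1 hd).1).1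
    _ = C * ∑ d ∈ Icc 1 n with p d, (3 / 4 : ℝ) ^ d := by rw [mul_sum]
    _ ≤ C * 4 := mul_le_mul_of_nonneg_left (geom_le _) hC0
    _ = 4 * C := by ring

end Pool.Agent.SmL.PSys
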